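import Mathlib

/-!
# Nilpotency of algebras with commutative corners

Let `D i` be finitely many elements of a ring with `D i ^ 2 = 0` such that `u D i v` and `v D i u`
agree between two factors `D i`, and `u D i u` vanishes there, for all products `u, v` of the
`D j`. Then all products of `N` factors vanish, where `N` only depends on the number of elements.
-/

namespace Pool.Agent.Lib.MP_afab79_al.E4

universe u v

/-- Square-zero elements with commutative corners. -/
structure Corners {ι : Type v} {R : Type u} [Ring R] (D : ι → R) : Prop where
  sq : ∀ i, D i * D i = 0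
  comm : ∀ i (l l' : List ι), D i * (l.map D).prod * D i * (l'.map D).prod * D i =
    D i * (l'.map D).prod * D i * (l.map D).prod * D i
  dup : ∀ i (l : List ι), D i * (l.map D).prod * D i * (l.map D).prod * D i = 0

theorem step_aux {ι : Type v} [Finite ι] (a : ι) (s : Finset ι) (N₀ : ℕ)
    {R : Type u} [Ring R] (D : ι → R) (hD : Corners D)
    (h0 : ∀ l : List ι, (∀ i ∈ l, i ∈ s) → N₀ ≤ l.length → (l.map D).prod = 0)
    (𝒰 : Finset (List ι)) (h𝒰 : ∀ l : List ι, l.length < N₀ → l ∈ 𝒰) (k : ℕ) :
    ∀ A : Finset (List ι), A ⊆ 𝒰 → 𝒰.card ≤ A.card + k → ∀ y : R,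
      (∀ u ∈ A, y * D a * (u.map D).prod * D a = 0) → ∀ l : List ι,
        (∀ i ∈ l, i = a ∨ i ∈ s) → (k + 1) * N₀ ≤ l.length → y * D a * (l.map D).prod = 0 := by
  classical
  -- the splitting of a long word
  have split : ∀ l : List ι, (∀ i ∈ l, i = a ∨ i ∈ s) → N₀ ≤ l.length →
      (l.map D).prod = 0 ∨ ∃ u l' : List ι, l = u ++ a :: l' ∧ u.length < N₀ ∧
        l.length ≤ l'.length + N₀ := by
    intro l hl hlen
    by_cases ha : a ∈ l.take N₀
    · right
      obtain ⟨as, bs, h1, h2⟩ := List.eq_append_cons_of_mem ha
      have h3 : l = as ++ a :: (bs ++ l.drop N₀) := by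
        conv_lhs => rw [← List.take_append_drop N₀ l, h1]
        simp
      have h4 : (l.take N₀).length = as.length + (bs.length + 1) := by
        rw [h1]; simp
      have h5 : (l.take N₀).length = N₀ := by simp [hlen]
      refine ⟨as, bs ++ l.drop N₀, h3, by omega, ?_⟩
      have h6 : l.length = as.length + ((bs ++ l.drop N₀).length + 1) := by
        conv_lhs => rw [h3]
        simp
      omega
    · left
      have h1 : ∀ i ∈ l.take N₀, i ∈ s := by
        intro i hi
        rcases hl i (List.mem_of_mem_take hi) with h | h
        · rw [h] at hi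
          exact absurd hi ha
        · exact h
      rw [← List.take_append_drop N₀ l, List.map_append, List.prod_append,
        h0 _ h1 (by simp [hlen]), zero_mul]
  induction k with
  | zero =>
    intro A hA hc y hy l hl hlen
    have hAU : A = 𝒰 := Finset.eq_of_subset_of_card_le hA (by simpa using hc)
    rcases split l hl (by simpa using hlen) with h | ⟨u, l', rfl, hu, _⟩
    · rw [h, mul_zero]
    · rw [List.map_append, List.prod_append, List.map_cons, List.prod_cons, ← mul_assoc,
        ← mul_assoc, hy u (hAU ▸ h𝒰 u hu), zero_mul]
  | succ k ih =>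
    intro A hA hc y hy l hl hlen
    have hN : (k + 1 + 1) * N₀ = (k + 1) * N₀ + N₀ := by ring
    rcases split l hl (by omega) with h | ⟨u, l', rfl, hu, hl'⟩
    · rw [h, mul_zero]
    · rw [List.map_append, List.prod_append, List.map_cons, List.prod_cons, ← mul_assoc,
        ← mul_assoc]
      by_cases huA : u ∈ A
      · rw [hy u huA, zero_mul]
      · apply ih (insert u A) (Finset.insert_subset (h𝒰 u hu) hA)
          (by rw [Finset.card_insert_of_notMem huA]; omega)
        · intro g hg
          rw [Finset.mem_insert] at hg
          rcases hg with rfl | hg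
          · have h1 := hD.dup a g
            calc y * D a * (g.map D).prod * D a * (g.map D).prod * D a
                = y * (D a * (g.map D).prod * D a * (g.map D).prod * D a) := by noncomm_ring
              _ = 0 := by rw [h1, mul_zero]
          · have h1 := hD.comm a u g
            calc y * D a * (u.map D).prod * D a * (g.map D).prod * D a
                = y * (D a * (u.map D).prod * D a * (g.map D).prod * D a) := by noncomm_ring
              _ = (y * D a * (g.map D).prod * D a) * (u.map D).prod * D a := by
                rw [h1]; noncomm_ring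
              _ = 0 := by rw [hy g hg]; simp
        · intro i hi
          exact hl i (by simp [hi])
        · omega

/-- **Nilpotency with a uniform bound.** -/
theorem nil_words {ι : Type v} [Finite ι] (s : Finset ι) : ∃ N : ℕ, ∀ (R : Type u) [Ring R]
    (D : ι → R), Corners D → ∀ l : List ι, (∀ i ∈ l, i ∈ s) → N ≤ l.length →
      (l.map D).prod = 0 := by
  classical
  induction s using Finset.induction_on with
  | empty =>
    refine ⟨1, fun R _ D hD l hl hlen => ?_⟩
    cases l with
    | nil => simp at hlen
    | cons i l => exact absurd (hl i (by simp)) (by simp)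
  | insert a s ha ih =>
    obtain ⟨N₀, h₀⟩ := ih
    have hfin : {l : List ι | l.length < N₀}.Finite := List.finite_length_lt ι N₀
    refine ⟨(hfin.toFinset.card + 1) * (N₀ + 1) + N₀ + 1, fun R _ D hD l hl hlen => ?_⟩
    have hl' : ∀ i ∈ l, i = a ∨ i ∈ s := fun i hi => Finset.mem_insert.1 (hl i hi)
    by_cases hal : a ∈ l.take N₀
    · obtain ⟨as, bs, h1, h2⟩ := List.eq_append_cons_of_mem hal
      have h3 : l = as ++ a :: (bs ++ l.drop N₀) := by
        conv_lhs => rw [← List.take_append_drop N₀ l, h1]
        simp
      have h4 : (l.take N₀).length = as.length + (bs.length + 1) := by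
        rw [h1]; simp
      have h5 : (l.take N₀).length ≤ N₀ := by simp
      have h6 : l.length = as.length + ((bs ++ l.drop N₀).length + 1) := by
        conv_lhs => rw [h3]
        simp
      rw [h3, List.map_append, List.prod_append, List.map_cons, List.prod_cons, ← mul_assoc]
      apply step_aux a s N₀ D hD (h₀ R D hD) hfin.toFinset (by simp) hfin.toFinset.card ∅
        (by simp) (by simp) _ (by simp)
      · intro i hi
        apply hl' i
        rw [h3]
        simp only [List.mem_append, List.mem_cons] at hi ⊢
        tauto
      · have : (hfin.toFinset.card + 1) * N₀ ≤ (hfin.toFinset.card + 1) * (N₀ + 1) :=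
          Nat.mul_le_mul_left _ (by omega)
        omega
    · have h1 : ∀ i ∈ l.take N₀, i ∈ s := by
        intro i hi
        rcases hl' i (List.mem_of_mem_take hi) with h | h
        · rw [h] at hi
          exact absurd hi hal
        · exact h
      rw [← List.take_append_drop N₀ l, List.map_append, List.prod_append,
        h₀ R D hD _ h1 (by simp; omega), zero_mul]

end Pool.Agent.Lib.MP_afab79_al.E4
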