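import Mathlib

/-!
# A ring identity behind elements of order four

In a ring of characteristic two let `a` and `b` be units of a group in which all odd words `u`
satisfy `(1 + u) ^ 3 = 0`. Then `(1 + a ^ 2) (1 + b ^ 2) (1 + a ^ 2) = 0`.
-/

namespace Pool.Agent.Lib.MP_afab79_al.E4

variable {R : Type*} [Ring R]

theorem d_mul (h2 : (1 : R) + 1 = 0) (a : R) (H0 : 1 + a + a ^ 2 + a ^ 3 = 0) :
    (1 + a ^ 2) * a = 1 + a ^ 2 := by
  linear_combination (norm := noncomm_ring) H0 - h2 - h2 * a ^ 2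

theorem mul_d (h2 : (1 : R) + 1 = 0) (a : R) (H0 : 1 + a + a ^ 2 + a ^ 3 = 0) :
    a * (1 + a ^ 2) = 1 + a ^ 2 := by
  linear_combination (norm := noncomm_ring) H0 - h2 - h2 * a ^ 2

theorem pow_four (a : R) (H0 : 1 + a + a ^ 2 + a ^ 3 = 0) : a ^ 4 = 1 := by
  linear_combination (norm := noncomm_ring) a * H0 - H0

theorem d_sq (h2 : (1 : R) + 1 = 0) (a : R) (H0 : 1 + a + a ^ 2 + a ^ 3 = 0) :
    (1 + a ^ 2) * (1 + a ^ 2) = 0 := by
  linear_combination (norm := noncomm_ring) pow_four a H0 + h2 + h2 * a ^ 2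

theorem d_mul_sq (h2 : (1 : R) + 1 = 0) (a : R) (H0 : 1 + a + a ^ 2 + a ^ 3 = 0) :
    (1 + a ^ 2) * a ^ 2 = 1 + a ^ 2 := by
  rw [pow_two, ← mul_assoc, ← pow_two, d_mul h2 a H0, d_mul h2 a H0]

theorem sq_mul_d (h2 : (1 : R) + 1 = 0) (a : R) (H0 : 1 + a + a ^ 2 + a ^ 3 = 0) :
    a ^ 2 * (1 + a ^ 2) = 1 + a ^ 2 := by
  rw [pow_two, mul_assoc, ← pow_two, mul_d h2 a H0, mul_d h2 a H0]

/-- The first identity: `d b d b = d b³ d` with `d = 1 + a²`. -/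
theorem dbdb (h2 : (1 : R) + 1 = 0) (a b : R) (H0 : 1 + a + a ^ 2 + a ^ 3 = 0)
    (H0' : 1 + b + b ^ 2 + b ^ 3 = 0)
    (H1 : 1 + a ^ 2 * b + a ^ 2 * b * (a ^ 2 * b) + b ^ 3 * a ^ 2 = 0) :
    (1 + a ^ 2) * b * (1 + a ^ 2) * b = (1 + a ^ 2) * b ^ 3 * (1 + a ^ 2) := by
  have hd := d_mul_sq h2 a H0
  linear_combination (norm := noncomm_ring) (1 + a ^ 2) * H1 - hd * (b + b * (a ^ 2 * b)) -
    (1 + a ^ 2) * H0' + h2 * ((1 + a ^ 2) * b ^ 2) - h2 * ((1 + a ^ 2) * b ^ 3 * a ^ 2)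

/-- The mirror of the first identity. -/
theorem bdbd (h2 : (1 : R) + 1 = 0) (a b : R) (H0 : 1 + a + a ^ 2 + a ^ 3 = 0)
    (H0' : 1 + b + b ^ 2 + b ^ 3 = 0)
    (H2 : 1 + b * a ^ 2 + b * a ^ 2 * (b * a ^ 2) + a ^ 2 * b ^ 3 = 0) :
    b * (1 + a ^ 2) * b * (1 + a ^ 2) = (1 + a ^ 2) * b ^ 3 * (1 + a ^ 2) := by
  have hd := sq_mul_d h2 a H0
  linear_combination (norm := noncomm_ring) H2 * (1 + a ^ 2) - (b + b * a ^ 2 * b) * hd -
    H0' * (1 + a ^ 2) + h2 * (b ^ 2 * (1 + a ^ 2)) - h2 * (a ^ 2 * b ^ 3 * (1 + a ^ 2))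

/-- The second identity: `d e d = d e a e`. -/
theorem ded_eq (h2 : (1 : R) + 1 = 0) (a b : R) (H0 : 1 + a + a ^ 2 + a ^ 3 = 0)
    (H3 : 1 + a * b ^ 2 + a * b ^ 2 * (a * b ^ 2) + b ^ 2 * a ^ 3 = 0) :
    (1 + a ^ 2) * (1 + b ^ 2) * (1 + a ^ 2) =
      (1 + a ^ 2) * ((1 + b ^ 2) * a * (1 + b ^ 2)) := by
  have hd := d_mul h2 a H0
  have hd2 := d_mul_sq h2 a H0
  linear_combination (norm := noncomm_ring) hd2 - hd * (1 + b ^ 2) -
    ((1 + a ^ 2) * H3 - hd * (b ^ 2 + b ^ 2 * (a * b ^ 2))) + (1 + a ^ 2) * b ^ 2 * H0 -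
    h2 * ((1 + a ^ 2) * b ^ 2 * a) + h2 * (1 + a ^ 2)

/-- **The ring identity**: `d e d = 0` with `d = 1 + a²` and `e = 1 + b²`. -/
theorem ded_zero (h2 : (1 : R) + 1 = 0) (a b : R) (H0 : 1 + a + a ^ 2 + a ^ 3 = 0)
    (H0' : 1 + b + b ^ 2 + b ^ 3 = 0)
    (H2 : 1 + b * a ^ 2 + b * a ^ 2 * (b * a ^ 2) + a ^ 2 * b ^ 3 = 0)
    (H3 : 1 + a * b ^ 2 + a * b ^ 2 * (a * b ^ 2) + b ^ 2 * a ^ 3 = 0)
    (H4 : 1 + b ^ 2 * a + b ^ 2 * a * (b ^ 2 * a) + a ^ 3 * b ^ 2 = 0) :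
    (1 + a ^ 2) * (1 + b ^ 2) * (1 + a ^ 2) = 0 := by
  set d := 1 + a ^ 2 with hd
  set e := 1 + b ^ 2 with he
  -- `e a e` commutes with `a`
  have c2 : e * a * e * a = a * e * a * e := by
    rw [he, dbdb h2 b a H0' H0 H4, bdbd h2 b a H0' H0 H3]
  have c3 : e * a * e * a = e * a ^ 3 * e := by
    rw [he, dbdb h2 b a H0' H0 H4]
  have s1 : d * e * d = d * (e * a * e) := ded_eq h2 a b H0 H3
  have s2 : e * d * e = e * (d * b * d) := ded_eq h2 b a H0' H2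
  -- `e d e = e a e (1 + a)`
  have s3 : e * d * e = e * a * e * (1 + a) := by
    have h1 := d_sq h2 b H0'
    rw [← he] at h1
    have h3 : e * (1 + a + a ^ 2 + a ^ 3) * e = 0 := by rw [H0]; simp
    have h4 : e * a * e * (1 + a) = e * a * e + e * a ^ 3 * e := by
      rw [mul_add, mul_one, c3]
    rw [h4, hd]
    linear_combination (norm := noncomm_ring) h3 - h2 * (e * a * e) - h2 * (e * a ^ 3 * e)
  -- conclusion
  have t1 : d * (1 + a) = 0 := by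
    rw [hd]
    linear_combination (norm := noncomm_ring) H0
  have s4 : e * (d * b * d) * (1 + a) = 0 := by
    have : e * (d * b * d) * (1 + a) = e * (d * b) * (d * (1 + a)) := by noncomm_ring
    rw [this, t1, mul_zero]
  have c2' : d * (e * a * e) = e * a * e * (1 + a) * (1 + a) := by
    have : (1 + a) * (1 + a) = 1 + a ^ 2 := by
      linear_combination (norm := noncomm_ring) h2 * a
    rw [mul_assoc (e * a * e), this, hd]
    have h5 : a * (e * a * e) = e * a * e * a := by rw [c2]; noncomm_ring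
    have h6 : a ^ 2 * (e * a * e) = e * a * e * a ^ 2 := by
      rw [pow_two, mul_assoc, h5, ← mul_assoc, h5, mul_assoc]
    rw [add_mul (1 : R) (a ^ 2), mul_add _ (1 : R) (a ^ 2), one_mul, mul_one, h6]
  rw [s1, c2', ← s3, s2, s4]

end Pool.Agent.Lib.MP_afab79_al.E4
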