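import Mathlib
import Pool.Agent.Lib.MP_afab79_al.E4.Ring
import Pool.Agent.Lib.MP_afab79_al.E4.Nil

/-!
# Corners of representations in which all odd elements satisfy `(1 + w) ^ 3 = 0`
-/

namespace Pool.Agent.Lib.MP_afab79_al.E4

universe u v

/-- The elements outside `L0` (the odd elements) have fourth power one, the product of two of them
lies in `L0`, and `1 + w + w² + w³` vanishes in the ring `R` of characteristic two for all odd
`w`. -/
structure Four {L : Type v} {R : Type u} [Group L] [Ring R] (L0 : Subgroup L) (ρ : L →* R) :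
    Prop where
  char2 : (1 : R) + 1 = 0
  odd : ∀ a b, a ∉ L0 → b ∉ L0 → a * b ∈ L0
  four : ∀ w ∉ L0, w ^ 4 = 1
  cube : ∀ w ∉ L0, 1 + ρ w + ρ w ^ 2 + ρ w ^ 3 = 0

/-- `δ_w = 1 + w²`. -/
def del {L : Type v} {R : Type u} [Group L] [Ring R] (ρ : L →* R) (w : L) : R := 1 + ρ w ^ 2

variable {L : Type v} {R : Type u} [Group L] [Ring R] {L0 : Subgroup L} {ρ : L →* R}

theorem odd_mul_even {a b : L} (ha : a ∉ L0) (hb : b ∈ L0) : a * b ∉ L0 :=
  fun h => ha (by simpa using L0.mul_mem h (L0.inv_mem hb))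

theorem even_mul_odd {a b : L} (ha : a ∈ L0) (hb : b ∉ L0) : a * b ∉ L0 :=
  fun h => hb (by simpa using L0.mul_mem (L0.inv_mem ha) h)

theorem Four.inv_eq (h : Four L0 ρ) {w : L} (hw : w ∉ L0) : w⁻¹ = w ^ 3 := by
  have := h.four w hw
  rw [inv_eq_iff_mul_eq_one, ← pow_succ']
  exact this

theorem Four.sq_inv (h : Four L0 ρ) {w : L} (hw : w ∉ L0) : (w ^ 2)⁻¹ = w ^ 2 := by
  have := h.four w hw
  rw [inv_eq_iff_mul_eq_one, ← pow_add]
  exact this

theorem Four.sq_mem (h : Four L0 ρ) {w : L} (hw : w ∉ L0) : w ^ 2 ∈ L0 := by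
  rw [pow_two]; exact h.odd w w hw hw

theorem Four.conj (h : Four L0 ρ) {w : L} (hw : w ∉ L0) (x : L) : x * w * x⁻¹ ∉ L0 := by
  by_cases hx : x ∈ L0
  · have h1 : x * w ∉ L0 := even_mul_odd hx hw
    exact odd_mul_even h1 (L0.inv_mem hx)
  · have h1 : x * w ∈ L0 := h.odd x w hx hw
    exact even_mul_odd h1 (fun h2 => hx (by simpa using L0.inv_mem h2))

/-- The ring identity. -/
theorem Four.ded (h : Four L0 ρ) {w v : L} (hw : w ∉ L0) (hv : v ∉ L0) :
    del ρ w * del ρ v * del ρ w = 0 := by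
  have key : ∀ a b : L, a ∉ L0 → b ∉ L0 →
      1 + ρ a * ρ b ^ 2 + ρ a * ρ b ^ 2 * (ρ a * ρ b ^ 2) + ρ b ^ 2 * ρ a ^ 3 = 0 := by
    intro a b ha hb
    have h1 : a * b ^ 2 ∉ L0 := odd_mul_even ha (h.sq_mem hb)
    have h2 := h.cube _ h1
    have h3 : (a * b ^ 2) ^ 3 = b ^ 2 * a ^ 3 := by
      rw [← h.inv_eq h1, mul_inv_rev, h.sq_inv hb, h.inv_eq ha]
    have h4 : ρ (a * b ^ 2) = ρ a * ρ b ^ 2 := by rw [map_mul, map_pow]
    have h5 : ρ (a * b ^ 2) ^ 3 = ρ b ^ 2 * ρ a ^ 3 := by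
      rw [← map_pow, h3, map_mul, map_pow, map_pow]
    rw [h5, h4, pow_two (ρ a * ρ b ^ 2)] at h2
    exact h2
  have key2 : ∀ a b : L, a ∉ L0 → b ∉ L0 →
      1 + ρ b ^ 2 * ρ a + ρ b ^ 2 * ρ a * (ρ b ^ 2 * ρ a) + ρ a ^ 3 * ρ b ^ 2 = 0 := by
    intro a b ha hb
    have h1 : b ^ 2 * a ∉ L0 := even_mul_odd (h.sq_mem hb) ha
    have h2 := h.cube _ h1
    have h3 : (b ^ 2 * a) ^ 3 = a ^ 3 * b ^ 2 := by
      rw [← h.inv_eq h1, mul_inv_rev, h.sq_inv hb, h.inv_eq ha]
    have h4 : ρ (b ^ 2 * a) = ρ b ^ 2 * ρ a := by rw [map_mul, map_pow]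
    have h5 : ρ (b ^ 2 * a) ^ 3 = ρ a ^ 3 * ρ b ^ 2 := by
      rw [← map_pow, h3, map_mul, map_pow, map_pow]
    rw [h5, h4, pow_two (ρ b ^ 2 * ρ a)] at h2
    exact h2
  exact ded_zero h.char2 (ρ w) (ρ v) (h.cube w hw) (h.cube v hv) (key v w hv hw) (key w v hw hv)
    (key2 w v hw hv)

theorem Four.del_mul (h : Four L0 ρ) {w : L} (hw : w ∉ L0) : del ρ w * ρ w = del ρ w :=
  d_mul h.char2 _ (h.cube w hw)

theorem Four.mul_del (h : Four L0 ρ) {w : L} (hw : w ∉ L0) : ρ w * del ρ w = del ρ w :=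
  mul_d h.char2 _ (h.cube w hw)

theorem Four.del_sq (h : Four L0 ρ) {w : L} (hw : w ∉ L0) : del ρ w * del ρ w = 0 :=
  d_sq h.char2 _ (h.cube w hw)

theorem Four.del_mul_inv (h : Four L0 ρ) {w : L} (hw : w ∉ L0) : del ρ w * ρ w⁻¹ = del ρ w := by
  conv_lhs => rw [← h.del_mul hw]
  rw [mul_assoc, ← map_mul, mul_inv_cancel, map_one, mul_one]

theorem Four.inv_mul_del (h : Four L0 ρ) {w : L} (hw : w ∉ L0) : ρ w⁻¹ * del ρ w = del ρ w := by
  conv_lhs => rw [← h.mul_del hw]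
  rw [← mul_assoc, ← map_mul, inv_mul_cancel, map_one, one_mul]

/-- `d x d = d x⁻¹ d`. -/
theorem Four.corner_inv (h : Four L0 ρ) {w : L} (hw : w ∉ L0) (x : L) :
    del ρ w * ρ x * del ρ w = del ρ w * ρ x⁻¹ * del ρ w := by
  have hl : ∀ z : L, del ρ w * ρ (w * z) * del ρ w = del ρ w * ρ z * del ρ w := by
    intro z
    rw [map_mul, ← mul_assoc, h.del_mul hw]
  have hr : ∀ z : L, del ρ w * ρ (z * w) * del ρ w = del ρ w * ρ z * del ρ w := by
    intro z
    rw [map_mul, ← mul_assoc, mul_assoc, h.mul_del hw]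
  have even : ∀ x ∈ L0, del ρ w * ρ x * del ρ w = del ρ w * ρ x⁻¹ * del ρ w := by
    intro x hx
    have hv : w * x ∉ L0 := odd_mul_even hw hx
    have h1 := h.ded hw hv
    have h2 : del ρ w * (1 + ρ (w * x) + ρ (w * x) ^ 2 + ρ (w * x) ^ 3) * del ρ w = 0 := by
      rw [h.cube _ hv]; simp
    have h3 : del ρ w * ρ (w * x) * del ρ w = del ρ w * ρ x * del ρ w := hl x
    have h4 : del ρ w * ρ (w * x) ^ 3 * del ρ w = del ρ w * ρ x⁻¹ * del ρ w := by
      rw [← map_pow, ← h.inv_eq hv, mul_inv_rev, ← hr (x⁻¹ * w⁻¹)]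
      simp
    have h5 := h.del_sq hw
    have h6 : del ρ w * ρ (w * x) ^ 2 * del ρ w = 0 := by
      have : del ρ (w * x) = 1 + ρ (w * x) ^ 2 := rfl
      rw [this] at h1
      linear_combination (norm := noncomm_ring) h1 - h5
    have h7 : del ρ w * ρ x * del ρ w + del ρ w * ρ x⁻¹ * del ρ w = 0 := by
      linear_combination (norm := noncomm_ring) h2 - h3 - h4 - h6 - h5
    linear_combination (norm := noncomm_ring) h7 - h.char2 * (del ρ w * ρ x⁻¹ * del ρ w)
  by_cases hx : x ∈ L0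
  · exact even x hx
  · have h1 : w⁻¹ * x ∈ L0 := h.odd _ _ (fun h2 => hw (by simpa using L0.inv_mem h2)) hx
    have h2 := even _ h1
    rw [← hl (w⁻¹ * x), mul_inv_cancel_left] at h2
    rw [h2, mul_inv_rev, inv_inv, hr]

/-- The corner algebra is commutative. -/
theorem Four.corner_comm (h : Four L0 ρ) {w : L} (hw : w ∉ L0) (x y : L) :
    del ρ w * ρ x * del ρ w * ρ y * del ρ w = del ρ w * ρ y * del ρ w * ρ x * del ρ w := by
  have h1 : ∀ x y : L, del ρ w * ρ x * del ρ w * ρ y * del ρ w =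
      del ρ w * ρ (x * y) * del ρ w + del ρ w * ρ (x * w ^ 2 * y) * del ρ w := by
    intro x y
    have : del ρ w * ρ x * del ρ w * ρ y * del ρ w =
        del ρ w * ρ x * (1 + ρ w ^ 2) * ρ y * del ρ w := rfl
    rw [this, map_mul, map_mul, map_mul, map_pow]
    noncomm_ring
  rw [h1, h.corner_inv hw (x * y), h.corner_inv hw (x * w ^ 2 * y), mul_inv_rev, mul_inv_rev,
    mul_inv_rev, h.sq_inv hw, ← mul_assoc, ← h1]
  calc del ρ w * ρ y⁻¹ * del ρ w * ρ x⁻¹ * del ρ w
      = (del ρ w * ρ y * del ρ w) * ρ x⁻¹ * del ρ w := by rw [h.corner_inv hw y]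
    _ = del ρ w * ρ y * (del ρ w * ρ x⁻¹ * del ρ w) := by noncomm_ring
    _ = del ρ w * ρ y * (del ρ w * ρ x * del ρ w) := by rw [← h.corner_inv hw x]
    _ = _ := by noncomm_ring

/-- The corners `d x d` square to zero. -/
theorem Four.corner_sq (h : Four L0 ρ) {w : L} (hw : w ∉ L0) (x : L) :
    del ρ w * ρ x * del ρ w * ρ x * del ρ w = 0 := by
  have h1 : ρ x * del ρ w * ρ x⁻¹ = del ρ (x * w * x⁻¹) := by
    have e1 : (x * w * x⁻¹) ^ 2 = x * w ^ 2 * x⁻¹ := by simp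
    rw [del, del, ← map_pow, ← map_pow, e1, map_mul, map_mul, mul_add, add_mul, mul_one,
      ← map_mul, mul_inv_cancel, map_one]
  calc del ρ w * ρ x * del ρ w * ρ x * del ρ w
      = del ρ w * ρ x * (del ρ w * ρ x * del ρ w) := by noncomm_ring
    _ = del ρ w * ρ x * (del ρ w * ρ x⁻¹ * del ρ w) := by rw [h.corner_inv hw x]
    _ = del ρ w * (ρ x * del ρ w * ρ x⁻¹) * del ρ w := by noncomm_ring
    _ = 0 := by rw [h1, h.ded hw (h.conj hw x)]

/-- The additive span of the group. -/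
def sp (ρ : L →* R) : AddSubgroup R := AddSubgroup.closure (Set.range ρ)

theorem Four.comm_sp (h : Four L0 ρ) {w : L} (hw : w ∉ L0) {u v : R} (hu : u ∈ sp ρ)
    (hv : v ∈ sp ρ) :
    del ρ w * u * del ρ w * v * del ρ w = del ρ w * v * del ρ w * u * del ρ w := by
  induction hu using AddSubgroup.closure_induction with
  | mem u hu =>
    obtain ⟨x, rfl⟩ := hu
    induction hv using AddSubgroup.closure_induction with
    | mem v hv =>
      obtain ⟨y, rfl⟩ := hv
      exact h.corner_comm hw x y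
    | zero => simp
    | add a b _ _ ha hb => linear_combination (norm := noncomm_ring) ha + hb
    | neg a _ ha => linear_combination (norm := noncomm_ring) -ha
  | zero => simp
  | add a b _ _ ha hb => linear_combination (norm := noncomm_ring) ha + hb
  | neg a _ ha => linear_combination (norm := noncomm_ring) -ha

theorem Four.sq_sp (h : Four L0 ρ) {w : L} (hw : w ∉ L0) {u : R} (hu : u ∈ sp ρ) :
    del ρ w * u * del ρ w * u * del ρ w = 0 := by
  induction hu using AddSubgroup.closure_induction with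
  | mem u hu =>
    obtain ⟨x, rfl⟩ := hu
    exact h.corner_sq hw x
  | zero => simp
  | add a b ha' hb' ha hb =>
    have h1 := h.comm_sp hw ha' hb'
    linear_combination (norm := noncomm_ring) ha + hb + h1 +
      h.char2 * (del ρ w * b * del ρ w * a * del ρ w)
  | neg a _ ha => linear_combination (norm := noncomm_ring) ha

theorem mul_mem_sp (g : L) {u : R} (hu : u ∈ sp ρ) : ρ g * u ∈ sp ρ := by
  induction hu using AddSubgroup.closure_induction with
  | mem u hu =>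
    obtain ⟨x, rfl⟩ := hu
    rw [← map_mul]
    exact AddSubgroup.subset_closure ⟨_, rfl⟩
  | zero => simp [(sp ρ).zero_mem]
  | add a b _ _ ha hb => rw [mul_add]; exact (sp ρ).add_mem ha hb
  | neg a _ ha => rw [mul_neg]; exact (sp ρ).neg_mem ha

theorem prod_mem_sp {ι : Type*} (w : ι → L) (l : List ι) :
    (l.map fun i => del ρ (w i)).prod ∈ sp ρ := by
  induction l with
  | nil => exact AddSubgroup.subset_closure ⟨1, by simp⟩
  | cons i l ih =>
    rw [List.map_cons, List.prod_cons, del, add_mul, one_mul, ← map_pow]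
    exact (sp ρ).add_mem ih (mul_mem_sp _ ih)

/-- The `δ_w` have commutative corners. -/
theorem Four.corners (h : Four L0 ρ) {ι : Type*} (w : ι → L) (hw : ∀ i, w i ∉ L0) :
    Corners fun i => del ρ (w i) where
  sq i := h.del_sq (hw i)
  comm i _ _ := h.comm_sp (hw i) (prod_mem_sp w _) (prod_mem_sp w _)
  dup i _ := h.sq_sp (hw i) (prod_mem_sp w _)

end Pool.Agent.Lib.MP_afab79_al.E4
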