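import Mathlib
import Pool.Agent.Lib.MP_afab79_al.E4.Corner

/-!
# The action on an elementary abelian normal 2-subgroup
-/

namespace Pool.Agent.Lib.MP_afab79_al.E4

universe u v

section Words

variable {L : Type v} {R : Type u} [Group L] [Ring R] {L0 : Subgroup L} {ρ : L →* R}

/-- The additive subgroup spanned by the products of at least `k` of the `D i`. -/
def J {ι : Type*} (D : ι → R) (k : ℕ) : AddSubgroup R :=
  AddSubgroup.closure {x | ∃ l : List ι, k ≤ l.length ∧ (l.map D).prod = x}

theorem J_mul {ι : Type*} (D : ι → R) {k m : ℕ} {x y : R} (hx : x ∈ J D k) (hy : y ∈ J D m) :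
    x * y ∈ J D (k + m) := by
  induction hx using AddSubgroup.closure_induction with
  | mem x hx =>
    obtain ⟨l, hl, rfl⟩ := hx
    induction hy using AddSubgroup.closure_induction with
    | mem y hy =>
      obtain ⟨l', hl', rfl⟩ := hy
      refine AddSubgroup.subset_closure ⟨l ++ l', ?_, ?_⟩
      · rw [List.length_append]; omega
      · rw [List.map_append, List.prod_append]
    | zero => rw [mul_zero]; exact (J D _).zero_mem
    | add a b _ _ ha hb => rw [mul_add]; exact (J D _).add_mem ha hb
    | neg a _ ha => rw [mul_neg]; exact (J D _).neg_mem ha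
  | zero => rw [zero_mul]; exact (J D _).zero_mem
  | add a b _ _ ha hb => rw [add_mul]; exact (J D _).add_mem ha hb
  | neg a _ ha => rw [neg_mul]; exact (J D _).neg_mem ha

theorem J_anti {ι : Type*} (D : ι → R) {k m : ℕ} (h : k ≤ m) : J D m ≤ J D k := by
  apply AddSubgroup.closure_mono
  rintro x ⟨l, hl, rfl⟩
  exact ⟨l, h.trans hl, rfl⟩

theorem Four.sub_one_mem (h : Four L0 ρ) {ι : Type*} (w : ι → L) (hw : ∀ i, w i ∉ L0) {t : L}
    (ht : t ∈ Subgroup.closure (Set.range fun i => w i ^ 2)) :
    ρ t - 1 ∈ J (fun i => del ρ (w i)) 1 := by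
  set D : ι → R := fun i => del ρ (w i)
  have key : ρ t - 1 ∈ J D 1 ∧ ρ t⁻¹ - 1 ∈ J D 1 := by
    induction ht using Subgroup.closure_induction with
    | mem t ht =>
      obtain ⟨i, rfl⟩ := ht
      have h1 : ρ (w i ^ 2) - 1 = D i := by
        have : D i = 1 + ρ (w i) ^ 2 := rfl
        rw [this, map_pow]
        linear_combination (norm := noncomm_ring) -h.char2
      have h2 : D i ∈ J D 1 := AddSubgroup.subset_closure ⟨[i], by simp, by simp⟩
      refine ⟨by rw [h1]; exact h2, ?_⟩
      simp only
      rw [h.sq_inv (hw i), h1]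
      exact h2
    | one => simp [(J D 1).zero_mem]
    | mul a b _ _ ha hb =>
      have e : ∀ x y : R, x - 1 ∈ J D 1 → y - 1 ∈ J D 1 → x * y - 1 ∈ J D 1 := by
        intro x y hx hy
        have : x * y - 1 = (x - 1) * (y - 1) + (x - 1) + (y - 1) := by noncomm_ring
        rw [this]
        exact (J D 1).add_mem ((J D 1).add_mem (J_anti D (by omega) (J_mul D hx hy)) hx) hy
      refine ⟨?_, ?_⟩
      · rw [map_mul]; exact e _ _ ha.1 hb.1
      · rw [mul_inv_rev, map_mul]; exact e _ _ hb.2 ha.2
    | inv a _ ha => rw [inv_inv]; exact ⟨ha.2, ha.1⟩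
  exact key.1

theorem Four.prod_sub_one (h : Four L0 ρ) {ι : Type*} (w : ι → L) (hw : ∀ i, w i ∉ L0) (N : ℕ)
    (hN : ∀ l : List ι, N ≤ l.length → (l.map fun i => del ρ (w i)).prod = 0) (ts : List L)
    (hts : ∀ t ∈ ts, t ∈ Subgroup.closure (Set.range fun i => w i ^ 2)) (hlen : N ≤ ts.length) :
    (ts.map fun t => ρ t - 1).prod = 0 := by
  have h1 : ∀ ts : List L, (∀ t ∈ ts, t ∈ Subgroup.closure (Set.range fun i => w i ^ 2)) →
      (ts.map fun t => ρ t - 1).prod ∈ J (fun i => del ρ (w i)) ts.length := by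
    intro ts
    induction ts with
    | nil => intro _; exact AddSubgroup.subset_closure ⟨[], by simp, by simp⟩
    | cons t ts ih =>
      intro hts
      rw [List.map_cons, List.prod_cons, List.length_cons, add_comm]
      exact J_mul _ (h.sub_one_mem w hw (hts t (by simp))) (ih fun s hs => hts s (by simp [hs]))
  have h2 : J (fun i => del ρ (w i)) N = ⊥ := by
    rw [J, AddSubgroup.closure_eq_bot_iff]
    rintro x ⟨l, hl, rfl⟩
    exact hN l hl
  have h3 := J_anti _ hlen (h1 ts hts)
  rw [h2, AddSubgroup.mem_bot] at h3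
  exact h3

end Words

section Conj

open scoped IsMulCommutative

variable {L : Type v} [Group L]

theorem end_ext {A : Type*} [AddCommGroup A] {f g : AddMonoid.End A} (h : ∀ v, f v = g v) :
    f = g :=
  AddMonoidHom.ext h

/-- Conjugation by `g` on an abelian normal subgroup, written additively. -/
def cjf (V : Subgroup L) [hV : V.Normal] [IsMulCommutative V] (g : L) :
    Additive V →+ Additive V where
  toFun v := Additive.ofMul ⟨g * (v.toMul : L) * g⁻¹, hV.conj_mem _ v.toMul.2 g⟩
  map_zero' := by
    apply Additive.toMul.injective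
    apply Subtype.ext
    simp
  map_add' a b := by
    apply Additive.toMul.injective
    apply Subtype.ext
    simp

theorem cjf_val (V : Subgroup L) [hV : V.Normal] [IsMulCommutative V] (g : L)
    (v : Additive V) : ((cjf V g v).toMul : L) = g * (v.toMul : L) * g⁻¹ := rfl

/-- Conjugation on an abelian normal subgroup, as a homomorphism to a ring. -/
def cj (V : Subgroup L) [hV : V.Normal] [IsMulCommutative V] :
    L →* AddMonoid.End (Additive V) where
  toFun g := cjf V g
  map_one' := by
    refine AddMonoidHom.ext fun v => Additive.toMul.injective (Subtype.ext ?_)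
    rw [cjf_val, one_mul, inv_one, mul_one]
    rfl
  map_mul' := fun a b => by
    refine AddMonoidHom.ext fun v => Additive.toMul.injective (Subtype.ext ?_)
    rw [cjf_val]
    change _ = ((cjf V a (cjf V b v)).toMul : L)
    rw [cjf_val, cjf_val]
    group

theorem cj_val (V : Subgroup L) [hV : V.Normal] [IsMulCommutative V] (g : L)
    (v : Additive V) : ((cj V g v).toMul : L) = g * (v.toMul : L) * g⁻¹ := rfl

theorem sub_one_val (V : Subgroup L) [hV : V.Normal] [IsMulCommutative V] (g : L)
    (v : Additive V) : (((cj V g - (1 : AddMonoid.End (Additive V))) v).toMul : L) = g * (v.toMul : L) * g⁻¹ * (v.toMul : L)⁻¹ := by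
  have : (cj V g - 1) v = cj V g v - v := rfl
  rw [this, toMul_sub, div_eq_mul_inv, Subgroup.coe_mul, cj_val, Subgroup.coe_inv]

/-- An elementary abelian normal 2-subgroup is a module of the required kind. -/
theorem four_cj (L0 : Subgroup L) (hodd : ∀ a b, a ∉ L0 → b ∉ L0 → a * b ∈ L0)
    (h4 : ∀ w ∉ L0, w ^ 4 = 1) (V : Subgroup L) [hV : V.Normal] [IsMulCommutative V]
    (hV0 : V ≤ L0) (h2 : ∀ v ∈ V, v ^ 2 = 1) : Four L0 (cj V) where
  char2 := by
    refine end_ext fun v => Additive.toMul.injective (Subtype.ext ?_)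
    have : ((1 + 1 : AddMonoid.End (Additive V)) v) = v + v := rfl
    rw [this, toMul_add, Subgroup.coe_mul, ← pow_two, h2 _ v.toMul.2]
    rfl
  odd := hodd
  four := h4
  cube w hw := by
    refine end_ext fun v => Additive.toMul.injective (Subtype.ext ?_)
    have e1 : ((1 + cj V w + cj V w ^ 2 + cj V w ^ 3 : AddMonoid.End (Additive V)) v) =
        v + cj V w v + cj V (w ^ 2) v + cj V (w ^ 3) v := by
      rw [map_pow, map_pow]; rfl
    rw [e1, toMul_add, toMul_add, toMul_add, Subgroup.coe_mul, Subgroup.coe_mul, Subgroup.coe_mul,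
      cj_val, cj_val, cj_val]
    have h5 : ((v.toMul : L) * w) ^ 4 = 1 := h4 _ (even_mul_odd (hV0 v.toMul.2) hw)
    have h6 : w ^ 4 = 1 := h4 w hw
    change _ = (1 : L)
    have h7 : ((v.toMul : L) * w) ^ 4 = (v.toMul : L) * (w * (v.toMul : L) * w⁻¹) *
        (w ^ 2 * (v.toMul : L) * (w ^ 2)⁻¹) * (w ^ 3 * (v.toMul : L) * (w ^ 3)⁻¹) * w ^ 4 := by
      simp only [pow_succ, pow_zero, one_mul]
      group
    rw [h7, h6, mul_one] at h5
    exact h5

end Conj

end Pool.Agent.Lib.MP_afab79_al.E4
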