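import Mathlib
import Pool.Agent.Lib.MP_afab79_al.E4.Act

/-!
# Consequences of nilpotent action
-/

namespace Pool.Agent.Lib.MP_afab79_al.E4

open scoped IsMulCommutative commutatorElement

theorem sub_one_pow {R : Type*} [Ring R] (h2 : (1 : R) + 1 = 0) (x : R) (j : ℕ) :
    (x - 1) ^ 2 ^ j = x ^ 2 ^ j - 1 := by
  induction j with
  | zero => simp
  | succ j ih =>
    rw [pow_succ 2 j, pow_mul, ih, pow_mul x]
    linear_combination (norm := noncomm_ring) h2 - h2 * x ^ 2 ^ j

variable {L : Type*} [Group L] {L0 : Subgroup L}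

/-- Powers of the elements of the subgroup generated by the squares act trivially. -/
theorem pow_act (V : Subgroup L) [hV : V.Normal] [IsMulCommutative V] (h : Four L0 (cj V))
    {ι : Type*} (w : ι → L) (hw : ∀ i, w i ∉ L0) (N : ℕ)
    (hN : ∀ l : List ι, N ≤ l.length → (l.map fun i => del (cj V) (w i)).prod = 0) (j : ℕ)
    (hj : N ≤ 2 ^ j) (t : L) (ht : t ∈ Subgroup.closure (Set.range fun i => w i ^ 2)) (v : L)
    (hv : v ∈ V) : t ^ 2 ^ j * v = v * t ^ 2 ^ j := by
  have h1 := h.prod_sub_one w hw N hN (List.replicate (2 ^ j) t)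
    (fun s hs => by rw [List.eq_of_mem_replicate hs]; exact ht) (by simpa using hj)
  rw [List.map_replicate, List.prod_replicate, sub_one_pow h.char2, ← map_pow] at h1
  have h2 := sub_one_val V (t ^ 2 ^ j) (Additive.ofMul ⟨v, hv⟩)
  rw [h1] at h2
  have h3 : t ^ 2 ^ j * v * (t ^ 2 ^ j)⁻¹ * v⁻¹ = 1 := h2.symm
  have h4 : t ^ 2 ^ j * v * (t ^ 2 ^ j)⁻¹ = v := mul_inv_eq_one.1 h3
  calc t ^ 2 ^ j * v = (t ^ 2 ^ j * v * (t ^ 2 ^ j)⁻¹) * t ^ 2 ^ j := by group
    _ = v * t ^ 2 ^ j := by rw [h4]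

/-- The elements of `V` killed by all products of `m` operators `t - 1`, `t ∈ T`. -/
def Kl (V T : Subgroup L) [hV : V.Normal] [IsMulCommutative V] (m : ℕ) : Subgroup L where
  carrier := {v | ∃ h : v ∈ V, ∀ ts : List L, (∀ t ∈ ts, t ∈ T) → ts.length = m →
    ((ts.map fun t => cj V t - 1).prod : AddMonoid.End (Additive V)) (Additive.ofMul ⟨v, h⟩) = 0}
  one_mem' := ⟨V.one_mem, fun ts _ _ => map_zero _⟩
  mul_mem' := by
    rintro a b ⟨ha, ha'⟩ ⟨hb, hb'⟩
    refine ⟨V.mul_mem ha hb, fun ts h1 h2 => ?_⟩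
    have h3 := map_add ((ts.map fun t => cj V t - 1).prod : AddMonoid.End (Additive V))
      (Additive.ofMul ⟨a, ha⟩) (Additive.ofMul ⟨b, hb⟩)
    rw [ha' ts h1 h2, hb' ts h1 h2, add_zero] at h3
    exact h3
  inv_mem' := by
    rintro a ⟨ha, ha'⟩
    refine ⟨V.inv_mem ha, fun ts h1 h2 => ?_⟩
    have h3 := map_neg ((ts.map fun t => cj V t - 1).prod : AddMonoid.End (Additive V))
      (Additive.ofMul ⟨a, ha⟩)
    rw [ha' ts h1 h2, neg_zero] at h3
    exact h3

/-- The iterated commutators with the subgroup generated by the squares vanish. -/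
theorem comm_act (V : Subgroup L) [hV : V.Normal] [IsMulCommutative V] (h : Four L0 (cj V))
    {ι : Type*} (w : ι → L) (hw : ∀ i, w i ∉ L0) (N : ℕ)
    (hN : ∀ l : List ι, N ≤ l.length → (l.map fun i => del (cj V) (w i)).prod = 0)
    (T : Subgroup L) (hT : T ≤ Subgroup.closure (Set.range fun i => w i ^ 2))
    (S : ℕ → Subgroup L) (hS0 : S 0 ≤ V) (hS : ∀ i, S (i + 1) ≤ ⁅S i, T⁆) : S N = ⊥ := by
  have key : ∀ i ≤ N, S i ≤ Kl V T (N - i) := by
    intro i
    induction i with
    | zero =>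
      intro _ v hv
      refine ⟨hS0 hv, fun ts h1 h2 => ?_⟩
      rw [h.prod_sub_one w hw N hN ts (fun t ht => hT (h1 t ht)) (by omega)]
      rfl
    | succ i ih =>
      intro hi
      refine (hS i).trans (Subgroup.commutator_le.2 fun v hv t ht => ?_)
      obtain ⟨hvV, hv'⟩ := ih (by omega) hv
      have hmem : ⁅v, t⁆ ∈ V := by
        have : ⁅v, t⁆ = v * (t * v⁻¹ * t⁻¹) := by rw [commutatorElement_def]; group
        rw [this]
        exact V.mul_mem hvV (hV.conj_mem _ (V.inv_mem hvV) t)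
      refine ⟨hmem, fun ts h1 h2 => ?_⟩
      have h3 := hv' (ts ++ [t]) (by
        intro s hs
        rw [List.mem_append, List.mem_singleton] at hs
        rcases hs with hs | rfl
        · exact h1 s hs
        · exact ht) (by rw [List.length_append, List.length_singleton]; omega)
      rw [List.map_append, List.prod_append, List.map_singleton, List.prod_singleton] at h3
      have h4 : (Additive.ofMul (⟨⁅v, t⁆, hmem⟩ : V)) =
          -((cj V t - 1 : AddMonoid.End (Additive V)) (Additive.ofMul ⟨v, hvV⟩)) := by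
        apply Additive.toMul.injective
        apply Subtype.ext
        rw [toMul_neg, Subgroup.coe_inv, sub_one_val]
        change ⁅v, t⁆ = (t * v * t⁻¹ * v⁻¹)⁻¹
        rw [commutatorElement_def]
        group
      rw [h4, map_neg, neg_eq_zero]
      exact h3
  rw [eq_bot_iff]
  intro v hv
  obtain ⟨hvV, hv'⟩ := key N le_rfl hv
  have h1 := hv' [] (by simp) (by simp)
  have h2 : Additive.ofMul (⟨v, hvV⟩ : V) = 0 := h1
  have h3 : (⟨v, hvV⟩ : V) = 1 := h2
  rw [Subgroup.mem_bot]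
  exact congrArg Subtype.val h3

end Pool.Agent.Lib.MP_afab79_al.E4
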