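import Mathlib

/-!
# Generation modulo the commutator subgroup
-/

namespace Pool.Agent.Lib.MP_afab79_al.E4

theorem gen_mod_comm {T : Type*} [Group T] [Finite T] [Group.IsNilpotent T] (H : Subgroup T)
    (h : H ⊔ commutator T = ⊤) : H = ⊤ := by
  rcases eq_top_or_exists_le_coatom H with hH | ⟨M, hM, hHM⟩
  · exact hH
  · exfalso
    have hn : M.Normal :=
      ((Group.isNilpotent_of_finite_tfae (G := T)).out 0 2 rfl rfl).1 (by assumption) M hM
    have h1 : ¬ commutator T ≤ M := by
      intro h1
      apply hM.1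
      rw [eq_top_iff, ← h]
      exact sup_le hHM h1
    have h2 : M ⊔ commutator T = ⊤ := hM.2 _ (left_lt_sup.2 h1)
    have h3 : Nontrivial (T ⧸ M) := by
      by_contra h3
      rw [not_nontrivial_iff_subsingleton, QuotientGroup.subsingleton_iff] at h3
      exact hM.1 h3
    have h4 := Group.IsSolvable.commutator_lt_top_of_nontrivial (T ⧸ M)
    apply h4.ne
    have h5 : (commutator T).map (QuotientGroup.mk' M) = commutator (T ⧸ M) := by
      rw [commutator_def, commutator_def, Subgroup.map_commutator,
        ← MonoidHom.range_eq_map, MonoidHom.range_eq_top.2 (QuotientGroup.mk'_surjective M)]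
    rw [← h5, eq_top_iff]
    intro x _
    obtain ⟨t, rfl⟩ := QuotientGroup.mk'_surjective M x
    have ht : t ∈ M ⊔ commutator T := by rw [h2]; exact Subgroup.mem_top t
    obtain ⟨a, ha, b, hb, rfl⟩ := Subgroup.mem_sup_of_normal_left.1 ht
    refine ⟨b, hb, ?_⟩
    rw [map_mul, show QuotientGroup.mk' M a = 1 from (QuotientGroup.eq_one_iff a).2 ha, one_mul]

open scoped commutatorElement

/-- A subgroup `T` of a finite `p`-group is generated by any subset which generates it modulo
`[T, T]`. -/
theorem le_of_mod_comm {L : Type*} [Group L] (p : ℕ) [Fact p.Prime] (T T₁ : Subgroup L) [Finite T]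
    (hT : IsPGroup p T) (h1 : T₁ ≤ T) (h : T ≤ T₁ ⊔ ⁅T, T⁆) : T ≤ T₁ := by
  have hn : Group.IsNilpotent T := hT.isNilpotent
  have key := gen_mod_comm (T₁.subgroupOf T) (by
    rw [eq_top_iff]
    intro t _
    have ht := h t.2
    have h2 : ⁅T, T⁆ = (commutator T).map T.subtype := by
      rw [commutator_def, Subgroup.map_commutator, ← MonoidHom.range_eq_map,
        Subgroup.range_subtype]
    have h3 : T₁ = (T₁.subgroupOf T).map T.subtype := by
      rw [Subgroup.map_subgroupOf_eq_of_le h1]
    rw [h2, h3, ← Subgroup.map_sup] at ht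
    obtain ⟨s, hs, hst⟩ := ht
    have : s = t := Subtype.ext hst
    rw [← this]
    exact hs)
  intro t ht
  have : (⟨t, ht⟩ : T) ∈ T₁.subgroupOf T := by rw [key]; exact Subgroup.mem_top _
  exact this

end Pool.Agent.Lib.MP_afab79_al.E4
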