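import Mathlib
import Pool.Agent.Lib.MP_afab79_al.E4.Corner

/-!
# Groups generated by odd elements, modulo the squares of short odd words
-/

namespace Pool.Agent.Lib.MP_afab79_al.E4

/-- The subgroup generated by the products of two elements of `X`. -/
def Ev {Q : Type*} [Group Q] (X : Set Q) : Subgroup Q :=
  Subgroup.closure {g | ∃ x ∈ X, ∃ y ∈ X, g = x * y}

section Invol

variable {Q : Type*} [Group Q] (X : Set Q) (h2 : ∀ x ∈ X, x * x = 1)
  (h3 : ∀ x ∈ X, ∀ y ∈ X, ∀ z ∈ X, x * y * z * (x * y * z) = 1)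

include h3 in
theorem inv_gen {x y z : Q} (hx : x ∈ X) (hy : y ∈ X) (hz : z ∈ X) :
    z * (x * y) * z = (x * y)⁻¹ := by
  have h := h3 z hz x hx y hy
  rw [eq_inv_iff_mul_eq_one, ← h]
  group

include h2 h3

theorem gen_comm {g h : Q} (hg : g ∈ Ev X) (hh : h ∈ Ev X) : g * h = h * g := by
  have key : ∀ x ∈ X, ∀ y ∈ X, ∀ x' ∈ X, ∀ y' ∈ X, x * y * (x' * y') = x' * y' * (x * y) := by
    intro x hx y hy x' hx' y' hy'
    have e1 := inv_gen X h3 hx' hy' hy
    have e2 := inv_gen X h3 hx' hy' hx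
    have ix : x⁻¹ = x := inv_eq_of_mul_eq_one_left (h2 x hx)
    have iy : y⁻¹ = y := inv_eq_of_mul_eq_one_left (h2 y hy)
    have e3 : x * (x' * y')⁻¹ * x = x' * y' := by
      rw [← e2]
      calc x * (x * (x' * y') * x) * x = (x * x) * (x' * y') * (x * x) := by group
        _ = x' * y' := by rw [h2 x hx]; group
    calc x * y * (x' * y') = x * (y * (x' * y') * y) * x * (x⁻¹ * y⁻¹) := by group
      _ = x' * y' * (x * y) := by rw [e1, e3, ix, iy]
  induction hg using Subgroup.closure_induction with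
  | mem g hg =>
    obtain ⟨x, hx, y, hy, rfl⟩ := hg
    induction hh using Subgroup.closure_induction with
    | mem h hh =>
      obtain ⟨x', hx', y', hy', rfl⟩ := hh
      exact key x hx y hy x' hx' y' hy'
    | one => simp
    | mul a b _ _ ha hb => exact Commute.mul_right ha hb
    | inv a _ ha => exact Commute.inv_right ha
  | one => simp
  | mul a b _ _ ha hb => exact Commute.mul_left ha hb
  | inv a _ ha => exact Commute.inv_left ha

theorem gen_inv {x g : Q} (hx : x ∈ X) (hg : g ∈ Ev X) : x * g * x = g⁻¹ := by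
  have ix : x⁻¹ = x := inv_eq_of_mul_eq_one_left (h2 x hx)
  have key : x * g * x⁻¹ = g⁻¹ := by
    induction hg using Subgroup.closure_induction with
    | mem g hg =>
      obtain ⟨y, hy, z, hz, rfl⟩ := hg
      rw [ix]
      exact inv_gen X h3 hy hz hx
    | one => simp
    | mul a b ha' hb' ha hb =>
      calc x * (a * b) * x⁻¹ = (x * a * x⁻¹) * (x * b * x⁻¹) := by group
        _ = a⁻¹ * b⁻¹ := by rw [ha, hb]
        _ = (a * b)⁻¹ := by
          rw [mul_inv_rev]
          exact gen_comm X h2 h3 (Subgroup.inv_mem _ ha') (Subgroup.inv_mem _ hb')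
    | inv a _ ha =>
      calc x * a⁻¹ * x⁻¹ = (x * a * x⁻¹)⁻¹ := by group
        _ = a⁻¹⁻¹ := by rw [ha]
  rw [ix] at key
  exact key

end Invol

section Struct

variable {L : Type*} [Group L] (L0 : Subgroup L) (hodd : ∀ a b, a ∉ L0 → b ∉ L0 → a * b ∈ L0)
  (X : Set L) (hX : Subgroup.closure X = ⊤) (hXo : ∀ x ∈ X, x ∉ L0) (T : Subgroup L)
  [hTn : T.Normal] (h2 : ∀ x ∈ X, x ^ 2 ∈ T) (h3 : ∀ x ∈ X, ∀ y ∈ X, ∀ z ∈ X, (x * y * z) ^ 2 ∈ T)

include h2 in
theorem q_sq : ∀ x ∈ QuotientGroup.mk' T '' X, x * x = 1 := by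
  rintro _ ⟨x, hx, rfl⟩
  rw [← map_mul, ← pow_two]
  exact (QuotientGroup.eq_one_iff _).2 (h2 x hx)

include h3 in
theorem q_cube : ∀ x ∈ QuotientGroup.mk' T '' X, ∀ y ∈ QuotientGroup.mk' T '' X,
    ∀ z ∈ QuotientGroup.mk' T '' X, x * y * z * (x * y * z) = 1 := by
  rintro _ ⟨x, hx, rfl⟩ _ ⟨y, hy, rfl⟩ _ ⟨z, hz, rfl⟩
  rw [← map_mul, ← map_mul, ← map_mul, ← pow_two]
  exact (QuotientGroup.eq_one_iff _).2 (h3 x hx y hy z hz)

include hodd hX hXo h2 h3 in
/-- Even elements are products of an even number of generators modulo `T`, odd ones are such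
products times a generator. -/
theorem parity (w : L) :
    (w ∈ L0 ∧ QuotientGroup.mk' T w ∈ Ev (QuotientGroup.mk' T '' X)) ∨
    (w ∉ L0 ∧ ∃ x ∈ QuotientGroup.mk' T '' X, ∃ g ∈ Ev (QuotientGroup.mk' T '' X),
      QuotientGroup.mk' T w = x * g) := by
  have k2 := q_sq X T h2
  have k3 := q_cube X T h3
  have hinv : ∀ a, a ∉ L0 → a⁻¹ ∉ L0 := fun a ha h => ha (by simpa using L0.inv_mem h)
  have hw : w ∈ Subgroup.closure X := by rw [hX]; exact Subgroup.mem_top w
  induction hw using Subgroup.closure_induction with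
  | mem w hw =>
    right
    exact ⟨hXo w hw, _, ⟨w, hw, rfl⟩, 1, Subgroup.one_mem _, by rw [mul_one]⟩
  | one => left; exact ⟨L0.one_mem, by rw [map_one]; exact Subgroup.one_mem _⟩
  | mul a b _ _ ha hb =>
    rcases ha with ⟨ha0, ha⟩ | ⟨ha0, x, hx, g, hg, ha⟩
    · rcases hb with ⟨hb0, hb⟩ | ⟨hb0, y, hy, g', hg', hb⟩
      · left
        refine ⟨L0.mul_mem ha0 hb0, ?_⟩
        rw [map_mul]
        exact Subgroup.mul_mem _ ha hb
      · right
        refine ⟨even_mul_odd ha0 hb0, y, hy, (QuotientGroup.mk' T a)⁻¹ * g',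
          Subgroup.mul_mem _ (Subgroup.inv_mem _ ha) hg', ?_⟩
        rw [map_mul, hb, ← gen_inv _ k2 k3 hy ha]
        calc QuotientGroup.mk' T a * (y * g') = 1 * QuotientGroup.mk' T a * (y * g') := by
              rw [one_mul]
          _ = y * (y * QuotientGroup.mk' T a * y * g') := by rw [← k2 y hy]; group
    · rcases hb with ⟨hb0, hb⟩ | ⟨hb0, y, hy, g', hg', hb⟩
      · right
        refine ⟨odd_mul_even ha0 hb0, x, hx, g * QuotientGroup.mk' T b,
          Subgroup.mul_mem _ hg hb, ?_⟩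
        rw [map_mul, ha, mul_assoc]
      · left
        refine ⟨hodd a b ha0 hb0, ?_⟩
        rw [map_mul, ha, hb]
        have e1 : x * g * (y * g') = (x * y) * (y * g * y) * g' := by
          calc x * g * (y * g') = x * 1 * g * (y * g') := by rw [mul_one]
            _ = (x * y) * (y * g * y) * g' := by rw [← k2 y hy]; group
        rw [e1, gen_inv _ k2 k3 hy hg]
        exact Subgroup.mul_mem _ (Subgroup.mul_mem _
          (Subgroup.subset_closure ⟨x, hx, y, hy, rfl⟩) (Subgroup.inv_mem _ hg)) hg'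
  | inv a _ ha =>
    rcases ha with ⟨ha0, ha⟩ | ⟨ha0, x, hx, g, hg, ha⟩
    · left
      exact ⟨L0.inv_mem ha0, by rw [map_inv]; exact Subgroup.inv_mem _ ha⟩
    · right
      refine ⟨hinv a ha0, x, hx, g, hg, ?_⟩
      have ix : x⁻¹ = x := inv_eq_of_mul_eq_one_left (k2 x hx)
      rw [map_inv, ha, mul_inv_rev, ix, ← gen_inv _ k2 k3 hx hg]
      calc x * g * x * x = x * g * (x * x) := by group
        _ = x * g := by rw [k2 x hx, mul_one]

include hodd hX hXo h2 h3 in
/-- The squares of all odd elements lie in `T`. -/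
theorem sq_mem_T (w : L) (hw : w ∉ L0) : w ^ 2 ∈ T := by
  rcases parity L0 hodd X hX hXo T h2 h3 w with ⟨h, _⟩ | ⟨_, x, hx, g, hg, h⟩
  · exact absurd h hw
  · rw [← QuotientGroup.eq_one_iff]
    change QuotientGroup.mk' T (w ^ 2) = 1
    rw [map_pow, h, pow_two]
    calc x * g * (x * g) = (x * g * x) * g := by group
      _ = 1 := by rw [gen_inv _ (q_sq X T h2) (q_cube X T h3) hx hg, inv_mul_cancel]

include hodd hX hXo h2 h3 in
/-- The even elements commute modulo `T`. -/
theorem comm_mem_T (a b : L) (ha : a ∈ L0) (hb : b ∈ L0) : a * b * a⁻¹ * b⁻¹ ∈ T := by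
  have key : ∀ c ∈ L0, QuotientGroup.mk' T c ∈ Ev (QuotientGroup.mk' T '' X) := by
    intro c hc
    rcases parity L0 hodd X hX hXo T h2 h3 c with ⟨_, h⟩ | ⟨h, _⟩
    · exact h
    · exact absurd hc h
  rw [← QuotientGroup.eq_one_iff]
  change QuotientGroup.mk' T (a * b * a⁻¹ * b⁻¹) = 1
  rw [map_mul, map_mul, map_mul, map_inv, map_inv,
    gen_comm _ (q_sq X T h2) (q_cube X T h3) (key a ha) (key b hb)]
  group

end Struct

end Pool.Agent.Lib.MP_afab79_al.E4
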