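import Mathlib
import Pool.Agent.Lib.MP_afab79_al.E4.Act2
import Pool.Agent.Lib.MP_afab79_al.E4.Gen
import Pool.Agent.Lib.MP_afab79_al.E4.Frat
import Pool.Agent.Lib.MP_afab79_al.Wr.Fin

/-!
# Finite 2-groups with a coset of elements of order dividing four
-/

namespace Pool.Agent.Lib.MP_afab79_al.E4

open scoped IsMulCommutative commutatorElement

universe u v

/-- `N` is a bound for the lengths of nonzero products of elements with commutative corners. -/
def NilBound (ι : Type v) (N : ℕ) : Prop := ∀ (R : Type u) [Ring R] (D : ι → R), Corners D →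
  ∀ l : List ι, N ≤ l.length → (l.map D).prod = 0

theorem exists_nilBound (ι : Type v) [Finite ι] : ∃ N, NilBound.{u, v} ι N := by
  have := Fintype.ofFinite ι
  obtain ⟨N, hN⟩ := nil_words.{u, v} (Finset.univ : Finset ι)
  exact ⟨N, fun R _ D hD l hl => hN R D hD l (fun i _ => Finset.mem_univ i) hl⟩

section Omega

variable {L : Type*} [Group L]

/-- If `g` centralises the elements of order two of an abelian subgroup `A` which it normalises,
then `g ^ 2 ^ i` centralises the elements of order dividing `2 ^ (i + 1)`. -/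
theorem omega_act (A : Subgroup L) (hA : A.Normal) (hAc : ∀ a ∈ A, ∀ b ∈ A, a * b = b * a)
    (g : L) (hg : ∀ a ∈ A, a ^ 2 = 1 → g * a = a * g) (i : ℕ) :
    ∀ a ∈ A, a ^ 2 ^ (i + 1) = 1 → g ^ 2 ^ i * a = a * g ^ 2 ^ i := by
  induction i with
  | zero =>
    intro a ha h2
    rw [pow_zero, pow_one]
    exact hg a ha (by simpa using h2)
  | succ i ih =>
    intro a ha h2
    set k := g ^ 2 ^ i with hk
    have hk2 : g ^ 2 ^ (i + 1) = k * k := by rw [hk, ← pow_add, ← two_mul, ← pow_succ']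
    have e1 : k * (a * a) = (a * a) * k := by
      apply ih (a * a) (A.mul_mem ha ha)
      rw [← pow_two, ← pow_mul, ← pow_succ']
      exact h2
    have hc : k * a * k⁻¹ * a⁻¹ ∈ A := A.mul_mem (hA.conj_mem a ha k) (A.inv_mem ha)
    have hka : k * a * k⁻¹ ∈ A := hA.conj_mem a ha k
    have e2 : (k * a * k⁻¹ * a⁻¹) ^ 2 = 1 := by
      have h3 : (k * a * k⁻¹) * a⁻¹ = a⁻¹ * (k * a * k⁻¹) := hAc _ hka _ (A.inv_mem ha)
      calc (k * a * k⁻¹ * a⁻¹) ^ 2 = (k * a * k⁻¹) * (a⁻¹ * (k * a * k⁻¹)) * a⁻¹ := by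
            rw [pow_two]; group
        _ = (k * a * k⁻¹) * ((k * a * k⁻¹) * a⁻¹) * a⁻¹ := by rw [h3]
        _ = k * (a * a) * k⁻¹ * a⁻¹ * a⁻¹ := by group
        _ = (a * a) * k * k⁻¹ * a⁻¹ * a⁻¹ := by rw [e1]
        _ = 1 := by group
    have e3 : k * (k * a * k⁻¹ * a⁻¹) = (k * a * k⁻¹ * a⁻¹) * k := by
      apply ih _ hc
      rw [pow_succ', pow_mul, e2, one_pow]
    have e4 : (k * a * k⁻¹ * a⁻¹) * (k * a * k⁻¹ * a⁻¹) = 1 := by rw [← pow_two]; exact e2
    rw [hk2]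
    calc k * k * a = k * (k * a * k⁻¹ * a⁻¹) * a * k := by group
      _ = (k * a * k⁻¹ * a⁻¹) * k * a * k := by rw [e3]
      _ = (k * a * k⁻¹ * a⁻¹) * (k * a * k⁻¹ * a⁻¹) * a * k * k := by group
      _ = a * (k * k) := by rw [e4]; group

end Omega

section Main

variable {L : Type u} [Group L] [Finite L] (hL : IsPGroup 2 L) (L0 : Subgroup L)
  (hodd : ∀ a b, a ∉ L0 → b ∉ L0 → a * b ∈ L0) (h4 : ∀ w ∉ L0, w ^ 4 = 1)

include hL hodd h4 in
/-- The bound for the exponent of `P`. -/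
theorem exp_P {ι : Type v} (w : ι → L) (hw : ∀ i, w i ∉ L0) (N : ℕ) (hN : NilBound.{u, v} ι N)
    (T : Subgroup L) (hT : T ≤ Subgroup.closure (Set.range fun i => w i ^ 2)) (P : Subgroup L)
    [P.Normal] (hP0 : P ≤ L0) (r j : ℕ) (hj : N ≤ 2 ^ j)
    (hA : ∀ A : Subgroup L, A.Normal → A ≤ P → (∀ a ∈ A, ∀ b ∈ A, a * b = b * a) →
      ∀ a ∈ A, a ^ 2 ^ r = 1)
    (hPT : ∀ p ∈ P, p ^ 2 ^ r ∈ T) (p : L) (hp : p ∈ P) : p ^ 2 ^ (r + (j + r) + r) = 1 := by
  obtain ⟨A, hAn, hAP, hAc, hAcent⟩ := Wr.exists_self_centralizing hL P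
  -- the elements of order two
  let V : Subgroup L :=
    { carrier := {a | a ∈ A ∧ a ^ 2 = 1}
      one_mem' := ⟨A.one_mem, one_pow 2⟩
      mul_mem' := by
        rintro a b ⟨ha, ha2⟩ ⟨hb, hb2⟩
        refine ⟨A.mul_mem ha hb, ?_⟩
        have : Commute a b := hAc a ha b hb
        rw [this.mul_pow, ha2, hb2, one_mul]
      inv_mem' := by
        rintro a ⟨ha, ha2⟩
        refine ⟨A.inv_mem ha, ?_⟩
        rw [inv_pow, ha2, inv_one] }
  have hV : ∀ v, v ∈ V ↔ v ∈ A ∧ v ^ 2 = 1 := fun v => Iff.rfl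
  have hVn : V.Normal := by
    refine ⟨fun v hv g => ?_⟩
    rw [hV] at hv ⊢
    refine ⟨hAn.conj_mem v hv.1 g, ?_⟩
    rw [pow_two]
    calc g * v * g⁻¹ * (g * v * g⁻¹) = g * (v ^ 2) * g⁻¹ := by rw [pow_two]; group
      _ = 1 := by rw [hv.2]; group
  have hVc : IsMulCommutative V :=
    ⟨⟨fun a b => Subtype.ext (hAc a a.2.1 b b.2.1)⟩⟩
  have h4V := four_cj L0 hodd h4 V (fun v hv => hP0 (hAP hv.1)) (fun v hv => hv.2)
  have hN' := hN _ _ (h4V.corners w hw)
  have hpT := hPT p hp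
  have key : p ^ (2 ^ r * (2 ^ j * 2 ^ r)) ∈ A := by
    apply hAcent _ (P.pow_mem hp _)
    intro a ha
    have h1 := omega_act A hAn hAc ((p ^ 2 ^ r) ^ 2 ^ j)
      (fun a ha ha2 => pow_act V h4V w hw N hN' j hj _ (hT hpT) a ⟨ha, ha2⟩) r a ha
      (by rw [pow_succ, pow_mul, hA A hAn hAP hAc a ha, one_pow])
    rw [← pow_mul, ← pow_mul] at h1
    exact h1
  have h2 := hA A hAn hAP hAc _ key
  rw [← pow_mul] at h2
  rw [← h2]
  congr 1
  simp only [pow_add]

end Main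

section Trans

variable {L : Type*} [Group L]

/-- Generators of a normal closure modulo its commutator subgroup. -/
theorem normalClosure_le_mod (S R : Set L)
    (hR : ∀ g : L, ∃ r ∈ R, ∃ t ∈ Subgroup.normalClosure S, g = t * r) :
    Subgroup.normalClosure S ≤ Subgroup.closure {x | ∃ r ∈ R, ∃ s ∈ S, x = r * s * r⁻¹} ⊔
      ⁅Subgroup.normalClosure S, Subgroup.normalClosure S⁆ := by
  have hn : (Subgroup.normalClosure S).Normal := inferInstance
  rw [Subgroup.normalClosure, Subgroup.closure_le]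
  intro c hc
  rw [Group.mem_conjugatesOfSet_iff] at hc
  obtain ⟨s, hs, hsc⟩ := hc
  obtain ⟨g, rfl⟩ := isConj_iff.1 hsc
  obtain ⟨r, hr, t, ht, rfl⟩ := hR g
  have hx : r * s * r⁻¹ ∈ Subgroup.normalClosure S :=
    hn.conj_mem _ (Subgroup.subset_normalClosure hs) r
  have h1 : t * r * s * (t * r)⁻¹ = ⁅t, r * s * r⁻¹⁆ * (r * s * r⁻¹) := by
    rw [commutatorElement_def]; group
  rw [SetLike.mem_coe, h1]
  exact Subgroup.mul_mem _ (Subgroup.mem_sup_right (Subgroup.commutator_mem_commutator ht hx))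
    (Subgroup.mem_sup_left (Subgroup.subset_closure ⟨r, hr, s, hs, rfl⟩))

end Trans

end Pool.Agent.Lib.MP_afab79_al.E4
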