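import Mathlib

/-!
# The subgroup generated by commutators and powers of a subgroup of finite index
-/

namespace Pool.Agent.Lib.MP_afab79_al.E4

open scoped commutatorElement

/-- The subgroup generated by the commutators and the `e`-th powers of the elements of `K`. -/
def CP {F : Type*} [Group F] (K : Subgroup F) (e : ℕ) : Subgroup F :=
  ⁅K, K⁆ ⊔ Subgroup.closure {x | ∃ k ∈ K, x = k ^ e}

theorem CP_le {F : Type*} [Group F] (K : Subgroup F) (e : ℕ) : CP K e ≤ K := by
  apply sup_le
  · rw [Subgroup.commutator_le]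
    intro a ha b hb
    rw [commutatorElement_def]
    exact K.mul_mem (K.mul_mem (K.mul_mem ha hb) (K.inv_mem ha)) (K.inv_mem hb)
  · rw [Subgroup.closure_le]
    rintro x ⟨k, hk, rfl⟩
    exact K.pow_mem hk e

theorem CP_finiteIndex {F : Type*} [Group F] [Group.FG F] (K : Subgroup F) [hK : K.FiniteIndex]
    (e : ℕ) (he : 0 < e) : (CP K e).FiniteIndex := by
  have hfg : Group.FG K := Subgroup.fg_of_index_ne_zero K
  let N' : Subgroup K := (CP K e).subgroupOf K
  have hcom : ∀ a b : K, a * b * a⁻¹ * b⁻¹ ∈ N' := by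
    intro a b
    rw [Subgroup.mem_subgroupOf]
    exact Subgroup.mem_sup_left (Subgroup.commutator_mem_commutator a.2 b.2)
  have hn : N'.Normal := by
    refine ⟨fun a ha g => ?_⟩
    have h1 : g * a * g⁻¹ = (g * a * g⁻¹ * a⁻¹) * a := by group
    rw [h1]
    exact N'.mul_mem (hcom g a) ha
  have hcomm : ∀ a b : K ⧸ N', a * b = b * a := by
    intro a b
    obtain ⟨a, rfl⟩ := QuotientGroup.mk'_surjective N' a
    obtain ⟨b, rfl⟩ := QuotientGroup.mk'_surjective N' b
    rw [← map_mul, ← map_mul]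
    apply QuotientGroup.eq.2
    have h1 : (a * b)⁻¹ * (b * a) = b⁻¹ * a⁻¹ * b⁻¹⁻¹ * a⁻¹⁻¹ := by group
    rw [h1]
    exact hcom _ _
  let _ : CommGroup (K ⧸ N') := { (inferInstance : Group (K ⧸ N')) with mul_comm := hcomm }
  have hfin : Finite (K ⧸ N') := by
    have hfg' : Group.FG (K ⧸ N') := QuotientGroup.fg N'
    apply CommGroup.finite_of_fg_isMulTorsion
    intro g
    obtain ⟨g, rfl⟩ := QuotientGroup.mk'_surjective N' g
    rw [isOfFinOrder_iff_pow_eq_one]
    refine ⟨e, he, ?_⟩
    rw [← map_pow]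
    apply (QuotientGroup.eq_one_iff _).2
    rw [Subgroup.mem_subgroupOf]
    exact Subgroup.mem_sup_right (Subgroup.subset_closure ⟨g, g.2, by push_cast; rfl⟩)
  have h1 : N'.FiniteIndex := Subgroup.finiteIndex_of_finite_quotient
  refine ⟨?_⟩
  rw [← Subgroup.relIndex_mul_index (CP_le K e)]
  exact Nat.mul_ne_zero h1.index_ne_zero hK.index_ne_zero

end Pool.Agent.Lib.MP_afab79_al.E4
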