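import Mathlib
import Pool.Agent.Lib.MP_afab79_al.E4.FinTwo
import Pool.Agent.Lib.MP_afab79_al.E4.Index
import Pool.Agent.Lib.MP_afab79_al.Wr.Sec

/-!
# The bound for one element
-/

namespace Pool.Agent.Lib.MP_afab79_al.E4

open scoped commutatorElement

open Wr

universe u

/-- Evaluation of words in three letters. -/
def e3 {G : Type u} [Group G] (x y z : G) : FreeGroup (Fin 3) →* G := FreeGroup.lift ![x, y, z]

@[simp] theorem e3_zero {G : Type u} [Group G] (x y z : G) : e3 x y z (FreeGroup.of 0) = x := by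
  simp [e3]

@[simp] theorem e3_one {G : Type u} [Group G] (x y z : G) : e3 x y z (FreeGroup.of 1) = y := by
  simp [e3]

@[simp] theorem e3_two {G : Type u} [Group G] (x y z : G) : e3 x y z (FreeGroup.of 2) = z := by
  simp [e3]

/-- The words of length one and three. -/
def wd : Fin 3 ⊕ (Fin 3 × Fin 3 × Fin 3) → FreeGroup (Fin 3)
  | Sum.inl i => FreeGroup.of i
  | Sum.inr (i, j, k) => FreeGroup.of i * FreeGroup.of j * FreeGroup.of k

theorem conj_odd {L : Type*} [Group L] {L0 : Subgroup L}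
    (hodd : ∀ a b, a ∉ L0 → b ∉ L0 → a * b ∈ L0) {w : L} (hw : w ∉ L0) (x : L) :
    x * w * x⁻¹ ∉ L0 := by
  by_cases hx : x ∈ L0
  · have h1 : x * w ∉ L0 := even_mul_odd hx hw
    exact odd_mul_even h1 (L0.inv_mem hx)
  · have h1 : x * w ∈ L0 := hodd x w hx hw
    exact even_mul_odd h1 (fun h2 => hx (by simpa using L0.inv_mem h2))

theorem closure_gen {L : Type*} [Group L] (φ : FreeGroup (Fin 3) →* L)
    (hφ : Function.Surjective φ) :
    Subgroup.closure (Set.range fun i => φ (FreeGroup.of i)) = ⊤ := by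
  have h1 : (Set.range fun i => φ (FreeGroup.of i)) = φ '' Set.range FreeGroup.of := by
    rw [← Set.range_comp]; rfl
  rw [h1, ← MonoidHom.map_closure, FreeGroup.closure_range_of, ← MonoidHom.range_eq_map,
    MonoidHom.range_eq_top.2 hφ]

variable {G : Type u} [Group G]

theorem bound_b (hG : IsPGroup 2 G) (N0 : Subgroup G)
    (hodd : ∀ a b, a ∉ N0 → b ∉ N0 → a * b ∈ N0) (h4 : ∀ w ∉ N0, w ^ 4 = 1) (y : G × G)
    (hy1 : y.1 ∉ N0) (hy2 : y.2 ∉ N0) (M : Subgroup G) [hMn : M.Normal] (hM : M ≤ N0)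
    [Finite (ev y).range] (s : ℕ) (hs : Nat.card (ev y).range ^ 3 = 2 ^ s)
    (hr : ∀ u ∈ M, ∀ v ∈ M, ∀ w, ev y w = 1 → ev (u * y.1, v * y.2) w = 1) (N : ℕ)
    (hN : NilBound.{u, 0} ((FreeGroup (Fin 3) ⧸ CP (e3 y.1 y.1 y.2).ker (2 ^ s)) ×
      (Fin 3 ⊕ (Fin 3 × Fin 3 × Fin 3))) N) (j : ℕ) (hj : N ≤ 2 ^ j) (b : G) (hb : b ∈ M)
    [Finite (e3 (b * y.1) y.1 y.2).range] : b ^ 2 ^ (s + (j + s) + s) = 1 := by
  set N1 := CP (e3 y.1 y.1 y.2).ker (2 ^ s) with hN1def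
  set L := (e3 (b * y.1) y.1 y.2).range with hLdef
  let φ : FreeGroup (Fin 3) →* L := (e3 (b * y.1) y.1 y.2).rangeRestrict
  have hφ : Function.Surjective φ := (e3 (b * y.1) y.1 y.2).rangeRestrict_surjective
  have hφv : ∀ f, ((φ f : L) : G) = e3 (b * y.1) y.1 y.2 f := fun f => rfl
  have hby : b * y.1 ∉ N0 := even_mul_odd (hM hb) hy1
  let L0 : Subgroup L := N0.subgroupOf L
  have hL0 : ∀ x : L, x ∈ L0 ↔ (x : G) ∈ N0 := fun x => Iff.rfl
  have hodd' : ∀ a b : L, a ∉ L0 → b ∉ L0 → a * b ∈ L0 := fun a b ha hb => hodd a b ha hb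
  have h4' : ∀ w : L, w ∉ L0 → w ^ 4 = 1 := fun w hw => Subtype.ext (by
    push_cast; exact h4 w hw)
  have hgen : ∀ i, φ (FreeGroup.of i) ∉ L0 := by
    intro i
    rw [hL0, hφv]
    fin_cases i
    · simpa using hby
    · simpa using hy1
    · simpa using hy2
  have hwd : ∀ κ, φ (wd κ) ∉ L0 := by
    rintro (i | ⟨i, j, k⟩)
    · exact hgen i
    · change φ (FreeGroup.of i * FreeGroup.of j * FreeGroup.of k) ∉ L0
      rw [map_mul, map_mul]
      exact even_mul_odd (hodd' _ _ (hgen i) (hgen j)) (hgen k)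
  let X : Set L := Set.range fun i => φ (FreeGroup.of i)
  have hX : Subgroup.closure X = ⊤ := closure_gen φ hφ
  have hXo : ∀ x ∈ X, x ∉ L0 := by
    rintro _ ⟨i, rfl⟩
    exact hgen i
  let S : Set L := Set.range fun κ => φ (wd κ) ^ 2
  let T : Subgroup L := Subgroup.normalClosure S
  have hTn : T.Normal := Subgroup.normalClosure_normal
  have h2 : ∀ x ∈ X, x ^ 2 ∈ T := by
    rintro _ ⟨i, rfl⟩
    exact Subgroup.subset_normalClosure ⟨Sum.inl i, rfl⟩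
  have h3 : ∀ x ∈ X, ∀ y ∈ X, ∀ z ∈ X, (x * y * z) ^ 2 ∈ T := by
    rintro _ ⟨i, rfl⟩ _ ⟨j, rfl⟩ _ ⟨k, rfl⟩
    rw [← map_mul, ← map_mul]
    exact Subgroup.subset_normalClosure ⟨Sum.inr (i, j, k), rfl⟩
  have hcomm := comm_mem_T L0 hodd' X hX hXo T h2 h3
  let P : Subgroup L := M.subgroupOf L
  have hPn : P.Normal := Subgroup.normal_subgroupOf
  have hP0 : P ≤ L0 := fun x hx => hM hx
  have hHL : (ev y).range ≤ L := by
    rw [ev_range, Subgroup.closure_le, hLdef]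
    rintro x (rfl | rfl)
    · exact ⟨FreeGroup.of 1, e3_one _ _ _⟩
    · exact ⟨FreeGroup.of 2, e3_two _ _ _⟩
  -- powers of the elements of `P` lie in `T`
  have hPT : ∀ p ∈ P, p ^ 2 ^ s ∈ T := by
    intro p hp
    have h1 := abelian_section y (T.map L.subtype ⊓ M) (L ⊓ M) (by
      rintro x hx _ ⟨⟨t, ht, rfl⟩, htM⟩
      refine ⟨⟨⟨x, hHL hx⟩ * t * ⟨x, hHL hx⟩⁻¹, hTn.conj_mem t ht _, rfl⟩, ?_⟩
      exact hMn.conj_mem _ htM x) (by
      rintro x hx a ⟨haL, haM⟩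
      exact ⟨L.mul_mem (L.mul_mem (hHL hx) haL) (L.inv_mem (hHL hx)), hMn.conj_mem _ haM x⟩)
      (fun u hu v hv => hr u hu.2 v hv.2) (by
      rintro a ⟨haL, haM⟩ c ⟨hcL, hcM⟩
      refine ⟨⟨⟨a, haL⟩ * ⟨c, hcL⟩ * ⟨a, haL⟩⁻¹ * ⟨c, hcL⟩⁻¹, ?_, rfl⟩,
        M.mul_mem (M.mul_mem (M.mul_mem haM hcM) (M.inv_mem haM)) (M.inv_mem hcM)⟩
      exact hcomm _ _ (hM haM) (hM hcM)) (p : G) ⟨p.2, hp⟩
    rw [hs] at h1
    obtain ⟨⟨t, ht, htp⟩, _⟩ := h1
    have : t = p ^ 2 ^ s := Subtype.ext (by rw [Subgroup.coe_pow]; exact htp)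
    rw [← this]
    exact ht
  have hA : ∀ A : Subgroup L, A.Normal → A ≤ P → (∀ a ∈ A, ∀ b ∈ A, a * b = b * a) →
      ∀ a ∈ A, a ^ 2 ^ s = 1 := by
    intro A hAn hAP hAc a ha
    have h1 := abelian_section y ⊥ (A.map L.subtype) (by
      intro x _ c hc
      rw [Subgroup.mem_bot] at hc ⊢
      rw [hc]; group) (by
      rintro x hx _ ⟨c, hc, rfl⟩
      exact ⟨⟨x, hHL hx⟩ * c * ⟨x, hHL hx⟩⁻¹, hAn.conj_mem c hc _, rfl⟩)
      (by
      rintro _ ⟨u, hu, rfl⟩ _ ⟨v, hv, rfl⟩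
      exact hr _ (hAP hu) _ (hAP hv)) (by
      rintro _ ⟨u, hu, rfl⟩ _ ⟨v, hv, rfl⟩
      rw [Subgroup.mem_bot, ← map_mul, ← map_inv, ← map_mul, ← map_inv, ← map_mul,
        hAc u hu v hv, show v * u * u⁻¹ * v⁻¹ = 1 by group, map_one]) (a : G) ⟨a, ha, rfl⟩
    rw [hs, Subgroup.mem_bot] at h1
    exact Subtype.ext (by push_cast; exact h1)
  -- the kernel of the reference evaluation goes to `M`, the subgroup `N1` goes to `T`
  have hK : ∀ f ∈ (e3 y.1 y.1 y.2).ker, φ f ∈ P := by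
    intro f hf
    have h5 : (QuotientGroup.mk' M).comp (e3 (b * y.1) y.1 y.2) =
        (QuotientGroup.mk' M).comp (e3 y.1 y.1 y.2) := by
      have hqb : QuotientGroup.mk' M b = 1 := (QuotientGroup.eq_one_iff b).2 hb
      ext i
      fin_cases i
      · change QuotientGroup.mk' M (e3 (b * y.1) y.1 y.2 (FreeGroup.of 0)) =
          QuotientGroup.mk' M (e3 y.1 y.1 y.2 (FreeGroup.of 0))
        rw [e3_zero, e3_zero, map_mul, hqb, one_mul]
      · change QuotientGroup.mk' M (e3 (b * y.1) y.1 y.2 (FreeGroup.of 1)) =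
          QuotientGroup.mk' M (e3 y.1 y.1 y.2 (FreeGroup.of 1))
        rw [e3_one, e3_one]
      · change QuotientGroup.mk' M (e3 (b * y.1) y.1 y.2 (FreeGroup.of 2)) =
          QuotientGroup.mk' M (e3 y.1 y.1 y.2 (FreeGroup.of 2))
        rw [e3_two, e3_two]
    have h6 : QuotientGroup.mk' M (e3 (b * y.1) y.1 y.2 f) = 1 := by
      have h7 := DFunLike.congr_fun h5 f
      have h8 : QuotientGroup.mk' M (e3 (b * y.1) y.1 y.2 f) =
          QuotientGroup.mk' M (e3 y.1 y.1 y.2 f) := h7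
      rw [h8, MonoidHom.mem_ker.1 hf, map_one]
    exact (QuotientGroup.eq_one_iff (e3 (b * y.1) y.1 y.2 f)).1 h6
  have hN1 : ∀ n ∈ N1, φ n ∈ T := by
    intro n hn
    have h5 : N1 ≤ T.comap φ := by
      rw [hN1def, CP]
      apply sup_le
      · rw [Subgroup.commutator_le]
        intro f hf g hg
        rw [Subgroup.mem_comap, commutatorElement_def, map_mul, map_mul, map_mul, map_inv,
          map_inv]
        exact hcomm _ _ (hP0 (hK f hf)) (hP0 (hK g hg))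
      · rw [Subgroup.closure_le]
        rintro _ ⟨k, hk, rfl⟩
        rw [SetLike.mem_coe, Subgroup.mem_comap, map_pow]
        exact hPT _ (hK k hk)
    exact h5 hn
  let R : Set L := Set.range fun c : FreeGroup (Fin 3) ⧸ N1 => φ c.out
  have hR : ∀ g : L, ∃ r ∈ R, ∃ t ∈ T, g = t * r := by
    intro g
    obtain ⟨f, rfl⟩ := hφ g
    have h5 : (QuotientGroup.mk f : FreeGroup (Fin 3) ⧸ N1).out⁻¹ * f ∈ N1 := by
      rw [← QuotientGroup.eq]
      exact Quotient.out_eq _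
    set c := (QuotientGroup.mk f : FreeGroup (Fin 3) ⧸ N1) with hc
    refine ⟨φ c.out, ⟨c, rfl⟩, φ c.out * φ (c.out⁻¹ * f) * (φ c.out)⁻¹,
      hTn.conj_mem _ (hN1 _ h5) _, ?_⟩
    rw [map_mul, map_inv]
    group
  let w : (FreeGroup (Fin 3) ⧸ N1) × (Fin 3 ⊕ (Fin 3 × Fin 3 × Fin 3)) → L :=
    fun i => φ i.1.out * φ (wd i.2) * (φ i.1.out)⁻¹
  have hw : ∀ i, w i ∉ L0 := fun i => conj_odd hodd' (hwd i.2) _
  have hT1 : Subgroup.closure {x | ∃ r ∈ R, ∃ s ∈ S, x = r * s * r⁻¹} ≤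
      Subgroup.closure (Set.range fun i => w i ^ 2) := by
    rw [Subgroup.closure_le]
    rintro x ⟨_, ⟨c, rfl⟩, _, ⟨κ, rfl⟩, rfl⟩
    apply Subgroup.subset_closure
    refine ⟨(c, κ), ?_⟩
    simp only [w, pow_two]
    group
  have hT2 : Subgroup.closure (Set.range fun i => w i ^ 2) ≤ T := by
    rw [Subgroup.closure_le]
    rintro x ⟨i, rfl⟩
    have h5 : w i ^ 2 = φ i.1.out * φ (wd i.2) ^ 2 * (φ i.1.out)⁻¹ := by
      simp only [w, pow_two]; group
    simp only [SetLike.mem_coe]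
    rw [h5]
    exact hTn.conj_mem _ (Subgroup.subset_normalClosure ⟨i.2, rfl⟩) _
  have hLp : IsPGroup 2 L := hG.to_subgroup L
  have hT : T ≤ Subgroup.closure (Set.range fun i => w i ^ 2) :=
    le_of_mod_comm 2 T _ (hLp.to_subgroup T) hT2
      ((normalClosure_le_mod S R hR).trans (sup_le_sup_right hT1 _))
  have hbL : b ∈ L := by
    refine ⟨FreeGroup.of 0 * (FreeGroup.of 1)⁻¹, ?_⟩
    rw [map_mul, map_inv, e3_zero, e3_one, mul_inv_cancel_right]
  have key := exp_P hLp L0 hodd' h4' w hw N hN T hT P hP0 s j hj hA hPT ⟨b, hbL⟩ hb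
  have h9 := congrArg Subtype.val key
  exact h9

end Pool.Agent.Lib.MP_afab79_al.E4
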