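import Mathlib

/-!
# Finite 2-groups with commutator subgroup in the third term of the exponent-2 series
-/

namespace Pool.Agent.Lib.MP_afab79_al.E4

open scoped commutatorElement

section Card

/-- A group of exponent two generated by `n` elements has at most `2 ^ n` elements. -/
theorem card_closure_le {Q : Type*} [Group Q] (hc : ∀ a b : Q, a * b = b * a)
    (h2 : ∀ a : Q, a * a = 1) (s : Finset Q) :
    (Subgroup.closure (s : Set Q) : Set Q).Finite ∧
      (Subgroup.closure (s : Set Q) : Set Q).ncard ≤ 2 ^ s.card := by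
  classical
  induction s using Finset.induction_on with
  | empty => simp
  | insert a s ha ih =>
    obtain ⟨hf, hle⟩ := ih
    set C : Set Q := (Subgroup.closure (s : Set Q) : Set Q) with hC
    have hsub : (Subgroup.closure ((insert a s : Finset Q) : Set Q) : Set Q) ⊆
        C ∪ (fun x => a * x) '' C := by
      intro x hx
      rw [SetLike.mem_coe] at hx
      induction hx using Subgroup.closure_induction with
      | mem x hx =>
        rw [Finset.coe_insert, Set.mem_insert_iff] at hx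
        rcases hx with rfl | hx
        · right; exact ⟨1, Subgroup.one_mem _, mul_one _⟩
        · left; exact Subgroup.subset_closure hx
      | one => left; exact Subgroup.one_mem _
      | mul x y _ _ hx hy =>
        rcases hx with hx | ⟨x, hx, rfl⟩
        · rcases hy with hy | ⟨y, hy, rfl⟩
          · left; exact Subgroup.mul_mem _ hx hy
          · right
            exact ⟨x * y, Subgroup.mul_mem _ hx hy, by
              simp only; rw [← mul_assoc, hc a x, mul_assoc]⟩
        · rcases hy with hy | ⟨y, hy, rfl⟩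
          · right; exact ⟨x * y, Subgroup.mul_mem _ hx hy, by simp only; rw [mul_assoc]⟩
          · left
            have : a * x * (a * y) = x * y := by
              rw [hc a x, mul_assoc, ← mul_assoc a a, h2, one_mul]
            simp only
            rw [this]
            exact Subgroup.mul_mem _ hx hy
      | inv x _ hx =>
        have : x⁻¹ = x := inv_eq_of_mul_eq_one_left (h2 x)
        rw [this]
        exact hx
    have hf' : (C ∪ (fun x => a * x) '' C).Finite := hf.union (hf.image _)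
    refine ⟨hf'.subset hsub, ?_⟩
    calc _ ≤ (C ∪ (fun x => a * x) '' C).ncard := Set.ncard_le_ncard hsub hf'
      _ ≤ C.ncard + ((fun x => a * x) '' C).ncard := Set.ncard_union_le _ _
      _ ≤ C.ncard + C.ncard := Nat.add_le_add_left (Set.ncard_image_le hf) _
      _ ≤ 2 ^ s.card + 2 ^ s.card := Nat.add_le_add hle hle
      _ = 2 ^ (insert a s).card := by rw [Finset.card_insert_of_notMem ha, pow_succ]; ring

end Card

variable {W : Type*} [Group W]

/-- The lower exponent-2 central series, starting with the whole group. -/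
def Ps (W : Type*) [Group W] : ℕ → Subgroup W
  | 0 => ⊤
  | i + 1 => Subgroup.closure {x | ∃ y ∈ Ps W i, x = y ^ 2} ⊔ ⁅Ps W i, (⊤ : Subgroup W)⁆

theorem Ps_sq {i : ℕ} {x : W} (hx : x ∈ Ps W i) : x ^ 2 ∈ Ps W (i + 1) :=
  Subgroup.mem_sup_left (Subgroup.subset_closure ⟨x, hx, rfl⟩)

theorem Ps_comm {i : ℕ} {x : W} (hx : x ∈ Ps W i) (g : W) : ⁅x, g⁆ ∈ Ps W (i + 1) :=
  Subgroup.mem_sup_right (Subgroup.commutator_mem_commutator hx (Subgroup.mem_top g))

theorem closure_normal_of_conj (S : Set W) (hS : ∀ x ∈ S, ∀ g, g * x * g⁻¹ ∈ S) :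
    (Subgroup.closure S).Normal := by
  refine ⟨fun x hx g => ?_⟩
  induction hx using Subgroup.closure_induction with
  | mem x hx => exact Subgroup.subset_closure (hS x hx g)
  | one => simp
  | mul a b _ _ ha hb =>
    have : g * (a * b) * g⁻¹ = (g * a * g⁻¹) * (g * b * g⁻¹) := by group
    rw [this]; exact Subgroup.mul_mem _ ha hb
  | inv a _ ha =>
    have : g * a⁻¹ * g⁻¹ = (g * a * g⁻¹)⁻¹ := by group
    rw [this]; exact Subgroup.inv_mem _ ha

theorem Ps_normal (i : ℕ) : (Ps W i).Normal := by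
  induction i with
  | zero => exact Subgroup.normal_top
  | succ i ih =>
    have h1 : (Subgroup.closure {x | ∃ y ∈ Ps W i, x = y ^ 2}).Normal := by
      apply closure_normal_of_conj
      rintro _ ⟨y, hy, rfl⟩ g
      exact ⟨g * y * g⁻¹, ih.conj_mem y hy g, by simp⟩
    have h2 : (⁅Ps W i, (⊤ : Subgroup W)⁆).Normal := inferInstance
    exact Subgroup.sup_normal _ _

theorem Ps_anti (i : ℕ) : Ps W (i + 1) ≤ Ps W i := by
  have hn := Ps_normal (W := W) i
  apply sup_le
  · rw [Subgroup.closure_le]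
    rintro _ ⟨y, hy, rfl⟩
    exact (Ps W i).pow_mem hy 2
  · rw [Subgroup.commutator_le]
    intro a ha b _
    rw [commutatorElement_def, mul_assoc, mul_assoc]
    exact (Ps W i).mul_mem ha (by
      rw [← mul_assoc]; exact hn.conj_mem _ ((Ps W i).inv_mem ha) b)

/-- `[P_i, W] ≤ P_{i + 2}` if `[W, W] ≤ P_2`. -/
theorem Ps_comm_two (h : commutator W ≤ Ps W 2) (i : ℕ) :
    ⁅Ps W i, (⊤ : Subgroup W)⁆ ≤ Ps W (i + 2) := by
  induction i with
  | zero => exact h
  | succ i ih =>
    have hn := Ps_normal (W := W) (i + 3)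
    -- the elements which are central modulo `P_{i + 3}`
    let C : Subgroup W :=
      { carrier := {g | ∀ t, ⁅g, t⁆ ∈ Ps W (i + 3)}
        one_mem' := fun t => by rw [commutatorElement_one_left]; exact Subgroup.one_mem _
        mul_mem' := by
          intro a b ha hb t
          have : ⁅a * b, t⁆ = (a * ⁅b, t⁆ * a⁻¹) * ⁅a, t⁆ := by
            simp only [commutatorElement_def]; group
          rw [this]
          exact Subgroup.mul_mem _ (hn.conj_mem _ (hb t) a) (ha t)
        inv_mem' := by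
          intro a ha t
          have : ⁅a⁻¹, t⁆ = a⁻¹ * ⁅a, t⁆⁻¹ * a⁻¹⁻¹ := by
            simp only [commutatorElement_def]; group
          rw [this]
          exact hn.conj_mem _ (Subgroup.inv_mem _ (ha t)) _ }
    have hC : Ps W (i + 1) ≤ C := by
      apply sup_le
      · rw [Subgroup.closure_le]
        rintro _ ⟨x, hx, rfl⟩ t
        have hc : ⁅x, t⁆ ∈ Ps W (i + 2) :=
          ih (Subgroup.commutator_mem_commutator hx (Subgroup.mem_top t))
        have e1 : ⁅x ^ 2, t⁆ = ⁅⁅x, t⁆, x⁆⁻¹ * ⁅x, t⁆ ^ 2 := by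
          simp only [commutatorElement_def, pow_two, mul_inv_rev, inv_inv, mul_assoc,
            inv_mul_cancel_left, mul_inv_cancel_left]
        rw [e1]
        exact Subgroup.mul_mem _ (Subgroup.inv_mem _ (Ps_comm hc x)) (Ps_sq hc)
      · refine ih.trans ?_
        intro x hx t
        exact Ps_comm hx t
    rw [Subgroup.commutator_le]
    intro g hg t _
    exact hC hg t

/-- The elements of `K` whose square lies in `D`. -/
def SqIn (K D : Subgroup W) (hD : D.Normal) (h : ∀ a ∈ K, ∀ b ∈ K, ⁅a, b⁆ ∈ D) (E : Subgroup W)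
    (hDE : D ≤ E) : Subgroup W where
  carrier := {x | x ∈ K ∧ x ^ 2 ∈ E}
  one_mem' := ⟨K.one_mem, by rw [one_pow]; exact E.one_mem⟩
  mul_mem' := by
    rintro a b ⟨ha, ha2⟩ ⟨hb, hb2⟩
    refine ⟨K.mul_mem ha hb, ?_⟩
    have e1 : (a * b) ^ 2 = a ^ 2 * b ^ 2 * (b⁻¹ * ⁅b⁻¹, a⁻¹⁆ * b⁻¹⁻¹) := by
      simp only [commutatorElement_def, pow_two]; group
    rw [e1]
    exact E.mul_mem (E.mul_mem ha2 hb2)
      (hDE (hD.conj_mem _ (h _ (K.inv_mem hb) _ (K.inv_mem ha)) _))
  inv_mem' := by
    rintro a ⟨ha, ha2⟩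
    exact ⟨K.inv_mem ha, by rw [inv_pow]; exact E.inv_mem ha2⟩

/-- `P_i` is generated modulo `P_{i + 1}` by the `2 ^ i`-th powers of the generators. -/
theorem Ps_gen (h : commutator W ≤ Ps W 2) (Y : Set W) (hY : Subgroup.closure Y = ⊤) (i : ℕ) :
    (∀ y ∈ Y, y ^ 2 ^ i ∈ Ps W i) ∧
      Ps W i ≤ Subgroup.closure {x | ∃ y ∈ Y, x = y ^ 2 ^ i} ⊔ Ps W (i + 1) := by
  induction i with
  | zero =>
    refine ⟨fun y _ => Subgroup.mem_top _, ?_⟩
    refine le_trans ?_ le_sup_left
    have : {x | ∃ y ∈ Y, x = y ^ 2 ^ 0} = Y := by ext x; simp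
    rw [this, hY]
    exact le_top
  | succ i ih =>
    obtain ⟨ih1, ih2⟩ := ih
    have h1 : ∀ y ∈ Y, y ^ 2 ^ (i + 1) ∈ Ps W (i + 1) := by
      intro y hy
      rw [pow_succ, pow_mul]
      exact Ps_sq (ih1 y hy)
    refine ⟨h1, ?_⟩
    have hn := Ps_normal (W := W) (i + 2)
    set E := Subgroup.closure {x | ∃ y ∈ Y, x = y ^ 2 ^ (i + 1)} ⊔ Ps W (i + 2) with hE
    have hc := Ps_comm_two h i
    let C := SqIn (Ps W i) (Ps W (i + 2)) hn (fun a ha b _ =>
      hc (Subgroup.commutator_mem_commutator ha (Subgroup.mem_top b))) E le_sup_right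
    have hC : Ps W i ≤ C := by
      refine ih2.trans (sup_le ?_ ?_)
      · rw [Subgroup.closure_le]
        rintro _ ⟨y, hy, rfl⟩
        refine ⟨ih1 y hy, ?_⟩
        rw [← pow_mul, ← pow_succ]
        exact Subgroup.mem_sup_left (Subgroup.subset_closure ⟨y, hy, rfl⟩)
      · intro x hx
        exact ⟨Ps_anti i hx, Subgroup.mem_sup_right (Ps_sq hx)⟩
    apply sup_le
    · rw [Subgroup.closure_le]
      rintro _ ⟨x, hx, rfl⟩
      exact (hC hx).2
    · exact hc.trans le_sup_right

/-- A normal subgroup `K` of a finite 2-group which equals `K² [K, W]` is trivial. -/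
theorem eq_bot_of_stable [Finite W] (hW : IsPGroup 2 W) (K : Subgroup W) (hK : K.Normal)
    (h : K ≤ Subgroup.closure {x | ∃ y ∈ K, x = y ^ 2} ⊔ ⁅K, (⊤ : Subgroup W)⁆) : K = ⊥ := by
  set D := ⁅K, (⊤ : Subgroup W)⁆ with hD
  have hDn : D.Normal := inferInstance
  have hDK : D ≤ K := by
    rw [hD, Subgroup.commutator_le]
    intro a ha b _
    rw [commutatorElement_def, mul_assoc, mul_assoc]
    exact K.mul_mem ha (by rw [← mul_assoc]; exact hK.conj_mem _ (K.inv_mem ha) b)
  have hcomm : ∀ a ∈ K, ∀ b, ⁅a, b⁆ ∈ D := fun a ha b =>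
    Subgroup.commutator_mem_commutator ha (Subgroup.mem_top b)
  -- every element of `K` is a square modulo `D`
  let C : Subgroup W :=
    { carrier := {x | ∃ y ∈ K, (y ^ 2)⁻¹ * x ∈ D}
      one_mem' := ⟨1, K.one_mem, by simp [D.one_mem]⟩
      mul_mem' := by
        rintro a b ⟨y, hy, ha⟩ ⟨z, hz, hb⟩
        refine ⟨y * z, K.mul_mem hy hz, ?_⟩
        have e1 : ((y * z) ^ 2)⁻¹ * (a * b) = (z⁻¹ * ⁅z⁻¹, y⁻¹⁆ * z⁻¹⁻¹)⁻¹ *
            (((z ^ 2)⁻¹ * ((y ^ 2)⁻¹ * a) * (z ^ 2)⁻¹⁻¹) * ((z ^ 2)⁻¹ * b)) := by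
          simp only [commutatorElement_def, pow_two]; group
        rw [e1]
        exact D.mul_mem (D.inv_mem (hDn.conj_mem _ (hcomm _ (K.inv_mem hz) _) _))
          (D.mul_mem (hDn.conj_mem _ ha _) hb)
      inv_mem' := by
        rintro a ⟨y, hy, ha⟩
        refine ⟨y⁻¹, K.inv_mem hy, ?_⟩
        have e1 : ((y⁻¹) ^ 2)⁻¹ * a⁻¹ = (y ^ 2 * ((y ^ 2)⁻¹ * a) * (y ^ 2)⁻¹)⁻¹ := by
          simp only [pow_two]; group
        rw [e1]
        exact D.inv_mem (hDn.conj_mem _ ha _) }
  have hC : K ≤ C := by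
    refine h.trans (sup_le ?_ ?_)
    · rw [Subgroup.closure_le]
      rintro _ ⟨y, hy, rfl⟩
      exact ⟨y, hy, by rw [inv_mul_cancel]; exact D.one_mem⟩
    · intro x hx
      exact ⟨1, K.one_mem, by simpa using hx⟩
  have hpow : ∀ k : ℕ, ∀ x ∈ K, ∃ y ∈ K, (y ^ 2 ^ k)⁻¹ * x ∈ D := by
    intro k
    induction k with
    | zero => exact fun x hx => ⟨x, hx, by simp [D.one_mem]⟩
    | succ k ih =>
      intro x hx
      obtain ⟨y, hy, hxy⟩ := ih x hx
      obtain ⟨z, hz, hyz⟩ := hC hy
      refine ⟨z, hz, ?_⟩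
      -- `y = z² d`
      have e1 : QuotientGroup.mk' D y = QuotientGroup.mk' D (z ^ 2) :=
        (QuotientGroup.eq.2 hyz).symm
      have e2 : QuotientGroup.mk' D x = QuotientGroup.mk' D (y ^ 2 ^ k) :=
        (QuotientGroup.eq.2 hxy).symm
      apply QuotientGroup.eq.1
      change QuotientGroup.mk' D (z ^ 2 ^ (k + 1)) = QuotientGroup.mk' D x
      rw [e2, map_pow _ y, e1, ← map_pow, ← pow_mul, ← pow_succ']
  have hKD : K ≤ D := by
    intro x hx
    obtain ⟨k, hk⟩ := IsPGroup.iff_card.1 hW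
    obtain ⟨y, _, hy⟩ := hpow k x hx
    rw [← hk, pow_card_eq_one', inv_one, one_mul] at hy
    exact hy
  have hnil : Group.IsNilpotent W := hW.isNilpotent
  obtain ⟨n, hn⟩ := Subgroup.nilpotent_iff_lowerCentralSeries.1 hnil
  have key : ∀ i, K ≤ (⊤ : Subgroup W).lowerCentralSeries i := by
    intro i
    induction i with
    | zero => exact le_top
    | succ i ih =>
      rw [Subgroup.lowerCentralSeries_succ]
      exact hKD.trans (Subgroup.commutator_mono ih le_rfl)
  rw [eq_bot_iff, ← hn]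
  exact key n

/-- **Bound for the order.** A finite 2-group with `[W, W] ≤ P_2` which is generated by `n` elements
of order dividing `2 ^ s` has at most `2 ^ (n s)` elements. -/
theorem card_le [Finite W] (hW : IsPGroup 2 W) (h : commutator W ≤ Ps W 2) (Y : Finset W)
    (hY : Subgroup.closure (Y : Set W) = ⊤) (s : ℕ) (hs : ∀ y ∈ Y, y ^ 2 ^ s = 1) :
    Nat.card W ≤ 2 ^ (Y.card * s) := by
  classical
  have hPs : Ps W s = ⊥ := by
    apply eq_bot_of_stable hW _ (Ps_normal s)
    have h1 := (Ps_gen h (Y : Set W) hY s).2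
    have h2 : Subgroup.closure {x | ∃ y ∈ (Y : Set W), x = y ^ 2 ^ s} = ⊥ := by
      rw [Subgroup.closure_eq_bot_iff]
      rintro _ ⟨y, hy, rfl⟩
      exact hs y hy
    rw [h2, bot_sup_eq] at h1
    exact h1
  have step : ∀ i, Nat.card (Ps W i) ≤ 2 ^ Y.card * Nat.card (Ps W (i + 1)) := by
    intro i
    have hn := Ps_normal (W := W) (i + 1)
    let N' : Subgroup (Ps W i) := (Ps W (i + 1)).subgroupOf (Ps W i)
    have hN'n : N'.Normal := Subgroup.normal_subgroupOf
    have hcard : Nat.card N' = Nat.card (Ps W (i + 1)) :=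
      Nat.card_congr (Subgroup.subgroupOfEquivOfLe (Ps_anti i)).toEquiv
    have h1 := Subgroup.card_eq_card_quotient_mul_card_subgroup N'
    rw [hcard] at h1
    rw [h1]
    apply Nat.mul_le_mul_right
    have hc : ∀ a b : Ps W i ⧸ N', a * b = b * a := by
      intro a b
      obtain ⟨a, rfl⟩ := QuotientGroup.mk'_surjective N' a
      obtain ⟨b, rfl⟩ := QuotientGroup.mk'_surjective N' b
      rw [← map_mul, ← map_mul]
      apply QuotientGroup.eq.2
      have h1 : (a * b)⁻¹ * (b * a) = ⁅b⁻¹, a⁻¹⁆ := by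
        rw [commutatorElement_def]; group
      rw [h1, Subgroup.mem_subgroupOf]
      have h2 : ((⁅b⁻¹, a⁻¹⁆ : Ps W i) : W) = ⁅(b : W)⁻¹, (a : W)⁻¹⁆ := by
        simp [commutatorElement_def]
      rw [h2]
      exact Ps_comm ((Ps W i).inv_mem b.2) _
    have h2 : ∀ a : Ps W i ⧸ N', a * a = 1 := by
      intro a
      obtain ⟨a, rfl⟩ := QuotientGroup.mk'_surjective N' a
      rw [← map_mul]
      apply (QuotientGroup.eq_one_iff _).2
      rw [Subgroup.mem_subgroupOf, ← pow_two, Subgroup.coe_pow]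
      exact Ps_sq a.2
    obtain ⟨hg1, hg2⟩ := Ps_gen h (Y : Set W) hY i
    -- the images of the powers of the generators
    let f : W → Ps W i ⧸ N' := fun y =>
      if hy : y ^ 2 ^ i ∈ Ps W i then QuotientGroup.mk' N' ⟨y ^ 2 ^ i, hy⟩ else 1
    have hcl : Subgroup.closure ((Y.image f : Finset _) : Set (Ps W i ⧸ N')) = ⊤ := by
      rw [eq_top_iff]
      intro x _
      obtain ⟨x, rfl⟩ := QuotientGroup.mk'_surjective N' x
      have hx := hg2 x.2
      obtain ⟨a, ha, b, hb, hab⟩ := Subgroup.mem_sup_of_normal_right.1 hx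
      have haP : a ∈ Ps W i := by
        have : a = (x : W) * b⁻¹ := by rw [← hab]; group
        rw [this]
        exact (Ps W i).mul_mem x.2 ((Ps W i).inv_mem (Ps_anti i hb))
      have e1 : QuotientGroup.mk' N' x = QuotientGroup.mk' N' ⟨a, haP⟩ := by
        apply QuotientGroup.eq.2
        rw [Subgroup.mem_subgroupOf]
        have : ((x⁻¹ * ⟨a, haP⟩ : Ps W i) : W) = b⁻¹ := by
          push_cast; rw [← hab]; group
        rw [this]
        exact Subgroup.inv_mem _ hb
      rw [e1]
      clear e1 hab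
      have key : ∀ a ∈ Subgroup.closure {x | ∃ y ∈ (Y : Set W), x = y ^ 2 ^ i},
          ∃ ha : a ∈ Ps W i, QuotientGroup.mk' N' ⟨a, ha⟩ ∈
            Subgroup.closure ((Y.image f : Finset _) : Set (Ps W i ⧸ N')) := by
        intro a ha
        induction ha using Subgroup.closure_induction with
        | mem a ha =>
          obtain ⟨y, hy, rfl⟩ := ha
          refine ⟨hg1 y hy, Subgroup.subset_closure ?_⟩
          rw [Finset.mem_coe, Finset.mem_image]
          exact ⟨y, hy, by simp only [f, dif_pos (hg1 y hy)]⟩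
        | one => exact ⟨Subgroup.one_mem _, Subgroup.one_mem _⟩
        | mul a b _ _ ha hb =>
          obtain ⟨ha, ha'⟩ := ha
          obtain ⟨hb, hb'⟩ := hb
          exact ⟨Subgroup.mul_mem _ ha hb, Subgroup.mul_mem _ ha' hb'⟩
        | inv a _ ha =>
          obtain ⟨ha, ha'⟩ := ha
          exact ⟨Subgroup.inv_mem _ ha, Subgroup.inv_mem _ ha'⟩
      exact (key a ha).2
    obtain ⟨_, hle⟩ := card_closure_le hc h2 (Y.image f)
    rw [hcl, Subgroup.coe_top, Set.ncard_univ] at hle
    exact hle.trans (Nat.pow_le_pow_right (by norm_num) Finset.card_image_le)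
  have key : ∀ k ≤ s, Nat.card (Ps W (s - k)) ≤ 2 ^ (Y.card * k) := by
    intro k
    induction k with
    | zero =>
      intro _
      rw [Nat.sub_zero, hPs]
      simp
    | succ k ih =>
      intro hk
      have h1 := step (s - (k + 1))
      have h2 : s - (k + 1) + 1 = s - k := by omega
      rw [h2] at h1
      calc _ ≤ 2 ^ Y.card * Nat.card (Ps W (s - k)) := h1
        _ ≤ 2 ^ Y.card * 2 ^ (Y.card * k) := Nat.mul_le_mul_left _ (ih (by omega))
        _ = 2 ^ (Y.card * (k + 1)) := by rw [← pow_add]; congr 1; ring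
  have h1 := key s le_rfl
  rw [Nat.sub_self] at h1
  have h2 : Nat.card (Ps W 0) = Nat.card W := Subgroup.card_top
  rw [h2] at h1
  exact h1

end Pool.Agent.Lib.MP_afab79_al.E4
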