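import Mathlib
import Pool.Agent.Lib.MP_afab79_al.E4.FinTwo
import Pool.Agent.Lib.MP_afab79_al.E4.Pow

/-!
# The lower central series of the subgroup generated by squares of odd elements
-/

namespace Pool.Agent.Lib.MP_afab79_al.E4

open scoped IsMulCommutative commutatorElement

universe u v

section Three

variable {G : Type*} [Group G]

/-- The three subgroups lemma for normal subgroups. -/
theorem three_subgroups (A B C D : Subgroup G) [D.Normal] (h1 : ⁅⁅B, C⁆, A⁆ ≤ D)
    (h2 : ⁅⁅C, A⁆, B⁆ ≤ D) : ⁅⁅A, B⁆, C⁆ ≤ D := by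
  let q := QuotientGroup.mk' D
  have hker : ∀ K : Subgroup G, K ≤ D ↔ K.map q = ⊥ := by
    intro K
    rw [Subgroup.map_eq_bot_iff, QuotientGroup.ker_mk']
  rw [hker, Subgroup.map_commutator, Subgroup.map_commutator] at h1 h2 ⊢
  exact Subgroup.commutator_commutator_eq_bot_of_rotate h1 h2

theorem lcs_normal (T : Subgroup G) [T.Normal] (n : ℕ) : (T.lowerCentralSeries n).Normal := by
  induction n with
  | zero => rw [Subgroup.lowerCentralSeries_zero]; infer_instance
  | succ n ih => rw [Subgroup.lowerCentralSeries_succ]; infer_instance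

theorem lcs_anti (T : Subgroup G) {m n : ℕ} (h : m ≤ n) :
    T.lowerCentralSeries n ≤ T.lowerCentralSeries m :=
  Subgroup.lowerCentralSeries_antitone T h

theorem lcs_comm (T : Subgroup G) [T.Normal] (b : ℕ) : ∀ a : ℕ,
    ⁅T.lowerCentralSeries a, T.lowerCentralSeries b⁆ ≤ T.lowerCentralSeries (a + b + 1) := by
  induction b with
  | zero => intro a; exact le_of_eq rfl
  | succ b ih =>
    intro a
    have hn := lcs_normal T (a + (b + 1) + 1)
    rw [Subgroup.commutator_comm, Subgroup.lowerCentralSeries_succ]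
    apply three_subgroups
    · rw [Subgroup.commutator_comm T]
      refine (ih (a + 1)).trans (lcs_anti T (by omega))
    · exact Subgroup.commutator_mono (ih a) le_rfl

end Three

section Phi

variable {G : Type*} [Group G]

/-- The subgroup generated by the squares and the commutators of the elements of `K`. -/
def Phi (K : Subgroup G) : Subgroup G := Subgroup.closure {x | ∃ y ∈ K, x = y ^ 2} ⊔ ⁅K, K⁆

theorem Phi_mono {K K' : Subgroup G} (h : K ≤ K') : Phi K ≤ Phi K' :=
  sup_le_sup (Subgroup.closure_mono (by rintro x ⟨y, hy, rfl⟩; exact ⟨y, h hy, rfl⟩))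
    (Subgroup.commutator_mono h h)

theorem Phi_le (K : Subgroup G) : Phi K ≤ K := by
  apply sup_le
  · rw [Subgroup.closure_le]
    rintro _ ⟨y, hy, rfl⟩
    exact K.pow_mem hy 2
  · exact K.commutator_le_self

theorem Phi_normal (K : Subgroup G) [hK : K.Normal] : (Phi K).Normal := by
  have h1 : (Subgroup.closure {x | ∃ y ∈ K, x = y ^ 2}).Normal := by
    apply closure_normal_of_conj
    rintro _ ⟨y, hy, rfl⟩ g
    exact ⟨g * y * g⁻¹, hK.conj_mem y hy g, by simp⟩
  exact Subgroup.sup_normal _ _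

theorem Phi_map_Ps {W : Type*} [Group W] (f : W →* G) (i : ℕ) :
    Phi ((Ps W i).map f) ≤ (Ps W (i + 1)).map f := by
  apply sup_le
  · rw [Subgroup.closure_le]
    rintro _ ⟨_, ⟨y, hy, rfl⟩, rfl⟩
    exact ⟨y ^ 2, Ps_sq hy, map_pow f y 2⟩
  · rw [← Subgroup.map_commutator]
    exact Subgroup.map_mono ((Subgroup.commutator_mono le_rfl le_top).trans le_sup_right)

end Phi

section Step

variable {L : Type u} [Group L] (L0 : Subgroup L)
  (hodd : ∀ a b, a ∉ L0 → b ∉ L0 → a * b ∈ L0) (h4 : ∀ w ∉ L0, w ^ 4 = 1)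

include hodd h4 in
/-- The iterated commutators of a normal subgroup with `T` lie in the Frattini subgroup. -/
theorem step_phi {ι : Type v} (w : ι → L) (hw : ∀ i, w i ∉ L0) (N : ℕ) (hN : NilBound.{u, v} ι N)
    (T : Subgroup L) [T.Normal] (hT0 : T ≤ L0)
    (hT : T ≤ Subgroup.closure (Set.range fun i => w i ^ 2)) (m : ℕ) :
    T.lowerCentralSeries (m + N) ≤ Phi (T.lowerCentralSeries m) := by
  have hn := lcs_normal T m
  set K := T.lowerCentralSeries m with hK
  have hKT : K ≤ T := Subgroup.lowerCentralSeries_le_self T m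
  have hPn := Phi_normal K
  let q := QuotientGroup.mk' (Phi K)
  have hq : Function.Surjective q := QuotientGroup.mk'_surjective _
  let V := K.map q
  have hVn : V.Normal := hn.map q hq
  have hVc : IsMulCommutative V := by
    refine ⟨⟨?_⟩⟩
    rintro ⟨_, a, ha, rfl⟩ ⟨_, b, hb, rfl⟩
    apply Subtype.ext
    change q a * q b = q b * q a
    rw [← map_mul, ← map_mul]
    apply QuotientGroup.eq.2
    have : (a * b)⁻¹ * (b * a) = ⁅b⁻¹, a⁻¹⁆ := by rw [commutatorElement_def]; group
    rw [this]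
    exact Subgroup.mem_sup_right (Subgroup.commutator_mem_commutator (K.inv_mem hb) (K.inv_mem ha))
  have hmem : ∀ x, q x ∈ L0.map q → x ∈ L0 := by
    rintro x ⟨y, hy, hyx⟩
    have h1 : y⁻¹ * x ∈ Phi K := QuotientGroup.eq.1 hyx
    have h2 : x = y * (y⁻¹ * x) := by group
    rw [h2]
    exact L0.mul_mem hy (hT0 (hKT (Phi_le K h1)))
  have h4V : Four (L0.map q) (cj V) := four_cj (L0.map q) (by
    intro a b ha hb
    obtain ⟨x, rfl⟩ := hq a
    obtain ⟨y, rfl⟩ := hq b
    rw [← map_mul]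
    exact ⟨x * y, hodd x y (fun h => ha ⟨x, h, rfl⟩) (fun h => hb ⟨y, h, rfl⟩), rfl⟩) (by
    intro a ha
    obtain ⟨x, rfl⟩ := hq a
    rw [← map_pow, h4 x (fun h => ha ⟨x, h, rfl⟩), map_one]) V
    (Subgroup.map_mono (hKT.trans hT0)) (by
    rintro _ ⟨a, ha, rfl⟩
    rw [← map_pow]
    exact (QuotientGroup.eq_one_iff _).2
      (Subgroup.mem_sup_left (Subgroup.subset_closure ⟨a, ha, rfl⟩)))
  have hw' : ∀ i, (q (w i)) ∉ L0.map q := fun i h => hw i (hmem _ h)
  have key := comm_act V h4V (fun i => q (w i)) hw' N (hN _ _ (h4V.corners _ hw')) (T.map q) (by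
    refine (Subgroup.map_mono hT).trans ?_
    rw [MonoidHom.map_closure]
    apply Subgroup.closure_mono
    rintro _ ⟨_, ⟨i, rfl⟩, rfl⟩
    exact ⟨i, (map_pow q (w i) 2).symm⟩) (fun i => (T.lowerCentralSeries (m + i)).map q)
    (le_of_eq rfl) (fun i => by
      rw [← Subgroup.map_commutator]
      exact le_of_eq rfl)
  have h1 : (T.lowerCentralSeries (m + N)).map q = ⊥ := key
  rw [Subgroup.map_eq_bot_iff, QuotientGroup.ker_mk'] at h1
  exact h1

include hodd h4 in
/-- The order of a finite 2-group of this kind. -/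
theorem card_lcs_le [Finite L] (hL : IsPGroup 2 L) {ι : Type v} (w : ι → L) (hw : ∀ i, w i ∉ L0)
    (N : ℕ) (hN : NilBound.{u, v} ι N) (T : Subgroup L) [T.Normal] (hT0 : T ≤ L0)
    (hT : T ≤ Subgroup.closure (Set.range fun i => w i ^ 2))
    (Y : Finset (T.lowerCentralSeries (N + N)))
    (hY : Subgroup.closure (Y : Set (T.lowerCentralSeries (N + N))) = ⊤) (s : ℕ)
    (hs : ∀ y ∈ Y, y ^ 2 ^ s = 1) :
    Nat.card (T.lowerCentralSeries (N + N)) ≤ 2 ^ (Y.card * s) := by
  refine card_le (hL.to_subgroup _) ?_ Y hY s hs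
  clear hs hY Y
  set W := T.lowerCentralSeries (N + N) with hW
  have h1 : ⁅W, W⁆ ≤ Phi (Phi W) := by
    have e1 : ⁅W, W⁆ ≤ T.lowerCentralSeries (N + N + N + N) := by
      refine (lcs_comm T (N + N) (N + N)).trans (lcs_anti T (by omega))
    have e2 := step_phi L0 hodd h4 w hw N hN T hT0 hT (N + N + N)
    have e3 := step_phi L0 hodd h4 w hw N hN T hT0 hT (N + N)
    exact e1.trans (e2.trans (Phi_mono e3))
  have h2 : Phi (Phi W) ≤ (Ps W 2).map W.subtype := by
    have e1 : W ≤ (Ps W 0).map W.subtype := by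
      intro x hx
      exact ⟨⟨x, hx⟩, Subgroup.mem_top _, rfl⟩
    exact (Phi_mono ((Phi_mono e1).trans (Phi_map_Ps W.subtype 0))).trans
      (Phi_map_Ps W.subtype 1)
  intro x hx
  have h3 : (x : L) ∈ ⁅W, W⁆ := by
    rw [← Subgroup.map_subtype_commutator]
    exact ⟨x, hx, rfl⟩
  obtain ⟨y, hy, hyx⟩ := h2 (h1 h3)
  have : y = x := Subtype.ext hyx
  rw [← this]
  exact hy

end Step

end Pool.Agent.Lib.MP_afab79_al.E4
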