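import Mathlib
import Pool.Agent.Lib.MP_afab79_al.E4.Phi
import Pool.Agent.Lib.MP_afab79_al.E4.Core

/-!
# Local finiteness
-/

namespace Pool.Agent.Lib.MP_afab79_al.E4

open scoped commutatorElement

universe u

/-- In a finitely generated torsion group the derived subgroup of a subgroup of finite index has
finite index. -/
theorem comm_finiteIndex {F : Type*} [Group F] [Group.FG F] (htor : ∀ g : F, IsOfFinOrder g)
    (K : Subgroup F) [hK : K.FiniteIndex] : (⁅K, K⁆ : Subgroup F).FiniteIndex := by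
  have hfg : Group.FG K := Subgroup.fg_of_index_ne_zero K
  have h1 : Finite (Abelianization K) := by
    have : Group.FG (Abelianization K) := QuotientGroup.fg _
    apply CommGroup.finite_of_fg_isMulTorsion
    intro g
    induction g using QuotientGroup.induction_on with
    | H g =>
      change IsOfFinOrder (Abelianization.of g)
      apply Abelianization.of.isOfFinOrder
      exact (Submonoid.isOfFinOrder_coe (H := K.toSubmonoid)).1 (htor g)
  have h2 : (commutator K).FiniteIndex := by
    have : Finite (K ⧸ commutator K) := h1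
    exact Subgroup.finiteIndex_of_finite_quotient
  have h3 : ⁅K, K⁆.subgroupOf K = commutator K := by
    rw [← Subgroup.map_subtype_commutator]
    exact Subgroup.comap_map_eq_self_of_injective K.subtype_injective _
  refine ⟨?_⟩
  rw [← Subgroup.relIndex_mul_index K.commutator_le_self]
  refine Nat.mul_ne_zero ?_ hK.index_ne_zero
  rw [Subgroup.relIndex, h3]
  exact h2.index_ne_zero

/-- Terms of the lower central series have finite index. -/
theorem lcs_finiteIndex {F : Type*} [Group F] [Group.FG F] (htor : ∀ g : F, IsOfFinOrder g)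
    (T : Subgroup F) [hT : T.FiniteIndex] (n : ℕ) : (T.lowerCentralSeries n).FiniteIndex := by
  induction n with
  | zero => exact hT
  | succ n ih =>
    have h1 := comm_finiteIndex htor (T.lowerCentralSeries n)
    have h2 : ⁅T.lowerCentralSeries n, T.lowerCentralSeries n⁆ ≤ T.lowerCentralSeries (n + 1) := by
      rw [Subgroup.lowerCentralSeries_succ]
      exact Subgroup.commutator_mono le_rfl (Subgroup.lowerCentralSeries_le_self T n)
    exact Subgroup.finiteIndex_of_le h2

/-- A group generated by finitely many involutions with `(x y z)² = 1` is finite if it is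
torsion. -/
theorem ev_finite {Q : Type*} [Group Q] (htor : ∀ g : Q, IsOfFinOrder g) (X : Set Q)
    (hXf : X.Finite) (h2 : ∀ x ∈ X, x * x = 1)
    (h3 : ∀ x ∈ X, ∀ y ∈ X, ∀ z ∈ X, x * y * z * (x * y * z) = 1) : Finite (Ev X) := by
  have hfg : Group.FG (Ev X) := by
    rw [Group.fg_iff_subgroup_fg, Subgroup.fg_iff]
    refine ⟨{g | ∃ x ∈ X, ∃ y ∈ X, g = x * y}, rfl, ?_⟩
    refine ((hXf.prod hXf).image fun p => p.1 * p.2).subset ?_
    rintro _ ⟨x, hx, y, hy, rfl⟩
    exact ⟨(x, y), ⟨hx, hy⟩, rfl⟩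
  let _ : CommGroup (Ev X) := { (inferInstance : Group (Ev X)) with
    mul_comm := fun a b => Subtype.ext (gen_comm X h2 h3 a.2 b.2) }
  apply CommGroup.finite_of_fg_isMulTorsion
  intro g
  exact (Submonoid.isOfFinOrder_coe (H := (Ev X).toSubmonoid)).1 (htor g)

section Main

variable {L : Type u} [Group L] (hL : IsPGroup 2 L) (L0 : Subgroup L)
  (hodd : ∀ a b, a ∉ L0 → b ∉ L0 → a * b ∈ L0) (h4 : ∀ w ∉ L0, w ^ 4 = 1)

include hodd in
theorem even_normal : L0.Normal := by
  refine ⟨fun g hg x => ?_⟩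
  by_contra hcon
  have h1 := conj_odd hodd hcon x⁻¹
  apply h1
  have : x⁻¹ * (x * g * x⁻¹) * x⁻¹⁻¹ = g := by group
  rw [this]
  exact hg

include hodd in
theorem even_finiteIndex : L0.FiniteIndex := by
  by_cases h : ∃ a, a ∉ L0
  · obtain ⟨a, ha⟩ := h
    have hai : a⁻¹ ∉ L0 := fun h => ha (by simpa using L0.inv_mem h)
    have : Finite (L ⧸ L0) := by
      have hsub : (Set.univ : Set (L ⧸ L0)) ⊆ {QuotientGroup.mk 1, QuotientGroup.mk a} := by
        intro g _
        induction g using QuotientGroup.induction_on with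
        | H g =>
          by_cases hg : g ∈ L0
          · left
            apply QuotientGroup.eq.2
            simpa using hg
          · right
            rw [Set.mem_singleton_iff]
            apply Eq.symm
            apply QuotientGroup.eq.2
            exact hodd _ _ hai hg
      exact Set.finite_univ_iff.1 ((Set.toFinite _).subset hsub)
    exact Subgroup.finiteIndex_of_finite_quotient
  · push Not at h
    have : L0 = ⊤ := by rw [eq_top_iff]; exact fun x _ => h x
    rw [this]
    infer_instance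

include hL hodd h4 in
/-- **Local finiteness.** A residually finite 2-torsion group generated by three odd elements, all
of whose odd elements have order dividing four, is finite. -/
theorem finite_of_odd (φ : FreeGroup (Fin 3) →* L) (hφ : Function.Surjective φ)
    (hgen : ∀ i, φ (FreeGroup.of i) ∉ L0)
    (hres : ∀ g : L, g ≠ 1 → ∃ K : Subgroup L, K.Normal ∧ K.FiniteIndex ∧ g ∉ K) : Finite L := by
  classical
  have htor : ∀ g : L, IsOfFinOrder g := by
    intro g
    obtain ⟨k, hk⟩ := hL g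
    rw [isOfFinOrder_iff_pow_eq_one]
    exact ⟨2 ^ k, Nat.pow_pos (by norm_num), hk⟩
  have hFG : Group.FG L := Group.fg_of_surjective hφ
  have hL0n : L0.Normal := even_normal L0 hodd
  have hL0f : L0.FiniteIndex := even_finiteIndex L0 hodd
  have hwd : ∀ κ, φ (wd κ) ∉ L0 := by
    rintro (i | ⟨i, j, k⟩)
    · exact hgen i
    · change φ (FreeGroup.of i * FreeGroup.of j * FreeGroup.of k) ∉ L0
      rw [map_mul, map_mul]
      exact even_mul_odd (hodd _ _ (hgen i) (hgen j)) (hgen k)
  let X : Set L := Set.range fun i => φ (FreeGroup.of i)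
  have hX : Subgroup.closure X = ⊤ := closure_gen φ hφ
  have hXo : ∀ x ∈ X, x ∉ L0 := by
    rintro _ ⟨i, rfl⟩
    exact hgen i
  let S : Set L := Set.range fun κ => φ (wd κ) ^ 2
  let T : Subgroup L := Subgroup.normalClosure S
  have hTn : T.Normal := Subgroup.normalClosure_normal
  have hT0 : T ≤ L0 := by
    apply Subgroup.normalClosure_le_normal
    rintro _ ⟨κ, rfl⟩
    simp only [SetLike.mem_coe, pow_two]
    exact hodd _ _ (hwd κ) (hwd κ)
  have h2 : ∀ x ∈ X, x ^ 2 ∈ T := by
    rintro _ ⟨i, rfl⟩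
    exact Subgroup.subset_normalClosure ⟨Sum.inl i, rfl⟩
  have h3 : ∀ x ∈ X, ∀ y ∈ X, ∀ z ∈ X, (x * y * z) ^ 2 ∈ T := by
    rintro _ ⟨i, rfl⟩ _ ⟨j, rfl⟩ _ ⟨k, rfl⟩
    rw [← map_mul, ← map_mul]
    exact Subgroup.subset_normalClosure ⟨Sum.inr (i, j, k), rfl⟩
  -- the quotient by `T` is finite
  have hQ : Finite (L ⧸ T) := by
    have k2 := q_sq X T h2
    have k3 := q_cube X T h3
    have hXf : (QuotientGroup.mk' T '' X).Finite := (Set.finite_range _).image _
    have hE : Finite (Ev (QuotientGroup.mk' T '' X)) := by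
      apply ev_finite _ _ hXf k2 k3
      intro g
      obtain ⟨g, rfl⟩ := QuotientGroup.mk'_surjective T g
      exact (QuotientGroup.mk' T).isOfFinOrder (htor g)
    have hEf : (Ev (QuotientGroup.mk' T '' X) : Set (L ⧸ T)).Finite := Set.toFinite _
    have hsub : (Set.univ : Set (L ⧸ T)) ⊆ (Ev (QuotientGroup.mk' T '' X) : Set (L ⧸ T)) ∪
        (fun p : (L ⧸ T) × (L ⧸ T) => p.1 * p.2) ''
          ((QuotientGroup.mk' T '' X) ×ˢ (Ev (QuotientGroup.mk' T '' X) : Set (L ⧸ T))) := by
      intro g _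
      obtain ⟨g, rfl⟩ := QuotientGroup.mk'_surjective T g
      rcases parity L0 hodd X hX hXo T h2 h3 g with ⟨_, h⟩ | ⟨_, x, hx, e, he, h⟩
      · left; exact h
      · right; exact ⟨(x, e), ⟨hx, he⟩, h.symm⟩
    exact Set.finite_univ_iff.1 ((hEf.union ((hXf.prod hEf).image _)).subset hsub)
  have hTf : T.FiniteIndex := Subgroup.finiteIndex_of_finite_quotient
  let w : (L ⧸ T) × (Fin 3 ⊕ (Fin 3 × Fin 3 × Fin 3)) → L :=
    fun i => i.1.out * φ (wd i.2) * i.1.out⁻¹
  have hw : ∀ i, w i ∉ L0 := fun i => conj_odd hodd (hwd i.2) _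
  obtain ⟨N, hN⟩ := exists_nilBound.{u, u} ((L ⧸ T) × (Fin 3 ⊕ (Fin 3 × Fin 3 × Fin 3)))
  let W : Subgroup L := T.lowerCentralSeries (N + N)
  have hWf : W.FiniteIndex := lcs_finiteIndex htor T (N + N)
  have hWfg : Group.FG W := Subgroup.fg_of_index_ne_zero W
  obtain ⟨_, Y, _, hY⟩ := Group.fg_iff'.1 hWfg
  obtain ⟨s, hs⟩ : ∃ s : ℕ, ∀ y ∈ Y, y ^ 2 ^ s = 1 := by
    have h5 : ∀ y : W, ∃ k : ℕ, y ^ 2 ^ k = 1 := hL.to_subgroup W
    choose k hk using h5
    refine ⟨Y.sup k, fun y hy => ?_⟩
    obtain ⟨m, hm⟩ := Nat.exists_eq_add_of_le (Finset.le_sup (f := k) hy)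
    rw [hm, pow_add, pow_mul, hk, one_pow]
  -- generators of `T` modulo its derived subgroup
  have hTg : T ≤ Subgroup.closure (Set.range fun i => w i ^ 2) ⊔ ⁅T, T⁆ := by
    let R : Set L := Set.range fun c : L ⧸ T => c.out
    have hR : ∀ g : L, ∃ r ∈ R, ∃ t ∈ T, g = t * r := by
      intro g
      have h5 : (QuotientGroup.mk g : L ⧸ T).out⁻¹ * g ∈ T := by
        rw [← QuotientGroup.eq]
        exact Quotient.out_eq _
      set c := (QuotientGroup.mk g : L ⧸ T) with hc
      refine ⟨c.out, ⟨c, rfl⟩, c.out * (c.out⁻¹ * g) * c.out⁻¹, hTn.conj_mem _ h5 _, ?_⟩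
      group
    refine (normalClosure_le_mod S R hR).trans (sup_le_sup_right ?_ _)
    rw [Subgroup.closure_le]
    rintro x ⟨_, ⟨c, rfl⟩, _, ⟨κ, rfl⟩, rfl⟩
    apply Subgroup.subset_closure
    refine ⟨(c, κ), ?_⟩
    simp only [w, pow_two]
    group
  have hT1 : Subgroup.closure (Set.range fun i => w i ^ 2) ≤ T := by
    rw [Subgroup.closure_le]
    rintro x ⟨i, rfl⟩
    have h5 : w i ^ 2 = i.1.out * φ (wd i.2) ^ 2 * i.1.out⁻¹ := by
      simp only [w, pow_two]; group
    simp only [SetLike.mem_coe]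
    rw [h5]
    exact hTn.conj_mem _ (Subgroup.subset_normalClosure ⟨i.2, rfl⟩) _
  -- the bound
  have bound : ∀ K : Subgroup L, K.Normal → K.FiniteIndex → K ≤ L0 →
      K.index ≤ W.index * 2 ^ (Y.card * s) := by
    intro K hKn hKf hK0
    have hfin : Finite (L ⧸ K) := Subgroup.finite_quotient_of_finiteIndex
    let q := QuotientGroup.mk' K
    have hq : Function.Surjective q := QuotientGroup.mk'_surjective K
    have hmem : ∀ x, q x ∈ L0.map q → x ∈ L0 := by
      rintro x ⟨y, hy, hyx⟩
      have h1 : y⁻¹ * x ∈ K := QuotientGroup.eq.1 hyx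
      have h2 : x = y * (y⁻¹ * x) := by group
      rw [h2]
      exact L0.mul_mem hy (hK0 h1)
    have hodd' : ∀ a b, a ∉ L0.map q → b ∉ L0.map q → a * b ∈ L0.map q := by
      intro a b ha hb
      obtain ⟨x, rfl⟩ := hq a
      obtain ⟨y, rfl⟩ := hq b
      rw [← map_mul]
      exact ⟨x * y, hodd x y (fun h => ha ⟨x, h, rfl⟩) (fun h => hb ⟨y, h, rfl⟩), rfl⟩
    have h4' : ∀ a ∉ L0.map q, a ^ 4 = 1 := by
      intro a ha
      obtain ⟨x, rfl⟩ := hq a
      rw [← map_pow, h4 x (fun h => ha ⟨x, h, rfl⟩), map_one]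
    have hw' : ∀ i, q (w i) ∉ L0.map q := fun i h => hw i (hmem _ h)
    have hL' : IsPGroup 2 (L ⧸ K) := hL.to_quotient K
    have hTn' : (T.map q).Normal := hTn.map q hq
    have hmapT1 : (Subgroup.closure (Set.range fun i => w i ^ 2)).map q =
        Subgroup.closure (Set.range fun i => q (w i) ^ 2) := by
      rw [MonoidHom.map_closure]
      congr 1
      ext x
      constructor
      · rintro ⟨_, ⟨i, rfl⟩, rfl⟩
        exact ⟨i, (map_pow q (w i) 2).symm⟩
      · rintro ⟨i, rfl⟩
        exact ⟨_, ⟨i, rfl⟩, map_pow q (w i) 2⟩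
    have hT' : T.map q ≤ Subgroup.closure (Set.range fun i => q (w i) ^ 2) := by
      apply le_of_mod_comm 2 (T.map q) _ (hL'.to_subgroup _)
      · rw [← hmapT1]
        exact Subgroup.map_mono hT1
      · rw [← hmapT1, ← Subgroup.map_commutator, ← Subgroup.map_sup]
        exact Subgroup.map_mono hTg
    have hWq : W.map q = (T.map q).lowerCentralSeries (N + N) :=
      Subgroup.map_lowerCentralSeries T q (N + N)
    let f : W →* (T.map q).lowerCentralSeries (N + N) :=
      (q.comp W.subtype).codRestrict _ (fun x => by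
        rw [← hWq]
        exact ⟨x, x.2, rfl⟩)
    have hf : Function.Surjective f := by
      rintro ⟨y, hy⟩
      have hy' := hy
      rw [← hWq] at hy'
      obtain ⟨x, hx, hxy⟩ := hy'
      exact ⟨⟨x, hx⟩, Subtype.ext hxy⟩
    have key := card_lcs_le (L0.map q) hodd' h4' hL' (fun i => q (w i)) hw' N hN (T.map q)
      (Subgroup.map_mono hT0) hT' (Y.image f) (by
        rw [Finset.coe_image, ← MonoidHom.map_closure, hY, ← MonoidHom.range_eq_map,
          MonoidHom.range_eq_top.2 hf]) s (by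
        intro y hy
        obtain ⟨x, hx, rfl⟩ := Finset.mem_image.1 hy
        rw [← map_pow, hs x hx, map_one])
    have h5 : Nat.card ((T.map q).lowerCentralSeries (N + N)) ≤ 2 ^ (Y.card * s) :=
      key.trans (Nat.pow_le_pow_right (by norm_num)
        (Nat.mul_le_mul_right s Finset.card_image_le))
    have h6 : ((T.map q).lowerCentralSeries (N + N)).index ≤ W.index := by
      rw [← hWq]
      exact Nat.le_of_dvd (Nat.pos_of_ne_zero hWf.index_ne_zero) (Subgroup.index_map_dvd W hq)
    have h7 : K.index = Nat.card (L ⧸ K) := rfl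
    rw [h7, ← Subgroup.index_mul_card ((T.map q).lowerCentralSeries (N + N))]
    exact Nat.mul_le_mul h6 h5
  -- take a subgroup of maximal index
  let I : Set ℕ := {n | ∃ K : Subgroup L, K.Normal ∧ K.FiniteIndex ∧ K ≤ L0 ∧ K.index = n}
  have hI : I.Nonempty := ⟨_, L0, hL0n, hL0f, le_rfl, rfl⟩
  have hIb : BddAbove I := by
    refine ⟨W.index * 2 ^ (Y.card * s), ?_⟩
    rintro n ⟨K, hKn, hKf, hK0, rfl⟩
    exact bound K hKn hKf hK0
  obtain ⟨K, hKn, hKf, hK0, hKi⟩ := Nat.sSup_mem hI hIb
  have hbot : K = ⊥ := by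
    rw [eq_bot_iff]
    intro g hg
    by_contra hg1
    obtain ⟨K', hK'n, hK'f, hgK'⟩ := hres g (fun h => hg1 (by rw [h]; exact Subgroup.one_mem _))
    have h5 : (K ⊓ K').index ∈ I :=
      ⟨K ⊓ K', Subgroup.normal_inf_normal _ _, inferInstance, inf_le_left.trans hK0, rfl⟩
    have h6 : (K ⊓ K').index ≤ K.index := by rw [hKi]; exact le_csSup hIb h5
    have h7 : K ⊓ K' < K := lt_of_le_of_ne inf_le_left (fun h => hgK' (by
      have : g ∈ K ⊓ K' := by rw [h]; exact hg
      exact this.2))
    have h8 := Subgroup.index_strictAnti h7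
    omega
  rw [hbot] at hKf
  have h5 : (⊥ : Subgroup L).index ≠ 0 := hKf.index_ne_zero
  rw [Subgroup.index_bot] at h5
  exact Nat.finite_of_card_ne_zero h5

end Main

end Pool.Agent.Lib.MP_afab79_al.E4
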