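import Mathlib
import Pool.Agent.Lib.MP_afab79_al.E4.Core
import Pool.Agent.Lib.MP_afab79_al.Wr.Final

/-!
# The topological part
-/

namespace Pool.Agent.Lib.MP_afab79_al.E4

open Wr

universe u

variable {G : Type u} [Group G] [TopologicalSpace G] [IsTopologicalGroup G] [CompactSpace G]
  [T2Space G] [TotallyDisconnectedSpace G]

theorem e3_range {G : Type u} [Group G] (x y z : G) :
    (e3 x y z).range = Subgroup.closure {x, y, z} := by
  rw [e3, FreeGroup.range_lift_eq_closure]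
  congr 1
  ext t
  simp only [Set.mem_range, Set.mem_insert_iff, Set.mem_singleton_iff]
  constructor
  · rintro ⟨i, rfl⟩
    fin_cases i <;> simp
  · rintro (h | h | h)
    · exact ⟨0, by simp [h]⟩
    · exact ⟨1, by simp [h]⟩
    · exact ⟨2, by simp [h]⟩

/-- The case of an open subgroup of index two. -/
theorem four_core (hG : IsPGroup 2 G) (N0 : Subgroup G) (hN0 : IsOpen (N0 : Set G))
    (hodd : ∀ a b, a ∉ N0 → b ∉ N0 → a * b ∈ N0) (h4 : ∀ w ∉ N0, w ^ 4 = 1)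
    (hne : ∃ a, a ∉ N0)
    (hfin : ∀ x ∉ N0, ∀ y ∉ N0, ∀ z ∉ N0, Finite (Subgroup.closure {x, y, z})) :
    ∃ n : ℕ, 0 < n ∧ ∀ g : G, g ^ n = 1 := by
  obtain ⟨a, ha⟩ := hne
  have hO : IsOpen ((N0 : Set G)ᶜ) := (N0.isClosed_of_isOpen hN0).isOpen_compl
  have hfin2 : ∀ x ∉ N0, ∀ y ∉ N0, Finite (Subgroup.closure {x, y}) := by
    intro x hx y hy
    have := hfin x hx x hx y hy
    exact Set.Finite.subset (Set.toFinite (Subgroup.closure {x, x, y} : Set G))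
      (Subgroup.closure_mono (Set.subset_insert _ _))
  obtain ⟨y, hyO, M, _, hMO, hr⟩ := exists_rigid_in ((N0 : Set G)ᶜ ×ˢ (N0 : Set G)ᶜ)
    (hO.prod hO) ⟨(a, a), ha, ha⟩ (by
      rintro y ⟨h1, h2⟩
      have h3 : Finite ((ev y).range) := by rw [ev_range]; exact hfin2 _ h1 _ h2
      exact Set.toFinite ((ev y).range : Set G))
  have hy1 : y.1 ∉ N0 := hyO.1
  have hy2 : y.2 ∉ N0 := hyO.2
  have hM : M.toSubgroup ≤ N0 := by
    intro u hu
    by_contra hcon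
    have h1 : u * y.1 ∉ N0 := (hMO u hu 1 M.toSubgroup.one_mem).1
    exact h1 (hodd u y.1 hcon hy1)
  have hMn : M.toSubgroup.Normal := M.isNormal'
  have hH : Finite (ev y).range := by rw [ev_range]; exact hfin2 _ hy1 _ hy2
  obtain ⟨s₀, hs₀⟩ := IsPGroup.iff_card.1 (hG.to_subgroup (ev y).range)
  have hs : Nat.card (ev y).range ^ 3 = 2 ^ (s₀ * 3) := by rw [hs₀, pow_mul]
  have hKf : Finite (e3 y.1 y.1 y.2).range := by rw [e3_range]; exact hfin _ hy1 _ hy1 _ hy2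
  have hK : (e3 y.1 y.1 y.2).ker.FiniteIndex := by
    have : Finite (FreeGroup (Fin 3) ⧸ (e3 y.1 y.1 y.2).ker) :=
      Finite.of_equiv _ (QuotientGroup.quotientKerEquivRange _).symm.toEquiv
    exact Subgroup.finiteIndex_of_finite_quotient
  have hN1 : (CP (e3 y.1 y.1 y.2).ker (2 ^ (s₀ * 3))).FiniteIndex :=
    CP_finiteIndex _ _ (Nat.pow_pos (by norm_num))
  have hfinI : Finite ((FreeGroup (Fin 3) ⧸ CP (e3 y.1 y.1 y.2).ker (2 ^ (s₀ * 3))) ×
      (Fin 3 ⊕ (Fin 3 × Fin 3 × Fin 3))) := by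
    have : Finite (FreeGroup (Fin 3) ⧸ CP (e3 y.1 y.1 y.2).ker (2 ^ (s₀ * 3))) :=
      Subgroup.finite_quotient_of_finiteIndex
    infer_instance
  obtain ⟨N, hN⟩ := exists_nilBound.{u, 0} ((FreeGroup (Fin 3) ⧸
    CP (e3 y.1 y.1 y.2).ker (2 ^ (s₀ * 3))) × (Fin 3 ⊕ (Fin 3 × Fin 3 × Fin 3)))
  refine exponent_of_open M _ (Nat.pow_pos (n := s₀ * 3 + (N + s₀ * 3) + s₀ * 3)
    (show 0 < 2 by norm_num)) fun b hb => ?_
  have hL : Finite (e3 (b * y.1) y.1 y.2).range := by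
    rw [e3_range]
    exact hfin _ (even_mul_odd (hM hb) hy1) _ hy1 _ hy2
  exact bound_b hG N0 hodd h4 y hy1 hy2 M.toSubgroup hM (s₀ * 3) hs hr N hN N
    Nat.lt_two_pow_self.le b hb

end Pool.Agent.Lib.MP_afab79_al.E4
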