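import Mathlib
import Pool.Agent.Lib.MP_afab79_al.E4.Top
import Pool.Agent.Lib.MP_afab79_al.E4.LF

/-!
# Torsion pro-2 groups with an open set of elements of order dividing four
-/

namespace Pool.Agent.Lib.MP_afab79_al.E4

open Wr

universe u

variable {G : Type u} [Group G] [TopologicalSpace G] [IsTopologicalGroup G] [CompactSpace G]
  [T2Space G] [TotallyDisconnectedSpace G]

omit [T2Space G] in
/-- Three odd elements generate a finite subgroup. -/
theorem odd_finite (hG : IsPGroup 2 G) (N0 : Subgroup G)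
    (hodd : ∀ a b, a ∉ N0 → b ∉ N0 → a * b ∈ N0) (h4 : ∀ w ∉ N0, w ^ 4 = 1) (x y z : G)
    (hx : x ∉ N0) (hy : y ∉ N0) (hz : z ∉ N0) : Finite (Subgroup.closure {x, y, z}) := by
  rw [← e3_range]
  let φ := (e3 x y z).rangeRestrict
  have hφ : Function.Surjective φ := (e3 x y z).rangeRestrict_surjective
  refine finite_of_odd (hG.to_subgroup _) (N0.subgroupOf (e3 x y z).range)
    (fun a b ha hb => hodd a b ha hb) (fun w hw => Subtype.ext (by push_cast; exact h4 w hw))
    φ hφ ?_ ?_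
  · intro i
    rw [Subgroup.mem_subgroupOf]
    change e3 x y z (FreeGroup.of i) ∉ N0
    fin_cases i
    · simpa using hx
    · simpa using hy
    · simpa using hz
  · intro g hg
    have hg' : (g : G) ≠ 1 := fun h => hg (Subtype.ext h)
    obtain ⟨M, hM⟩ := ProfiniteGrp.exist_openNormalSubgroup_sub_open_nhds_of_one
      (isOpen_compl_singleton (x := (g : G))) (fun h => hg' h.symm)
    have hMn : M.toSubgroup.Normal := M.isNormal'
    have hMf : M.toSubgroup.FiniteIndex := by
      have h1 : Finite (G ⧸ M.toSubgroup) := Subgroup.quotient_finite_of_isOpen _ M.isOpen'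
      exact Subgroup.finiteIndex_of_finite_quotient
    exact ⟨M.toSubgroup.subgroupOf (e3 x y z).range, Subgroup.normal_subgroupOf, inferInstance,
      fun h => hM h rfl⟩

/-- **Main theorem.** A profinite group whose elements have 2-power orders and in which some
nonempty open subset consists of elements of order dividing four has finite exponent. -/
theorem four_open (hG : IsPGroup 2 G) (U : Set G) (hU : IsOpen U) (hne : U.Nonempty)
    (h4 : ∀ u ∈ U, u ^ 4 = 1) : ∃ n : ℕ, 0 < n ∧ ∀ g : G, g ^ n = 1 := by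
  obtain ⟨a, ha⟩ := hne
  have hV : IsOpen {g : G | a * g ∈ U} := hU.preimage (continuous_const_mul a)
  have h1V : (1 : G) ∈ {g : G | a * g ∈ U} := by simpa using ha
  obtain ⟨M, hM⟩ := ProfiniteGrp.exist_openNormalSubgroup_sub_open_nhds_of_one hV h1V
  have hMn : M.toSubgroup.Normal := M.isNormal'
  let q : G →* G ⧸ M.toSubgroup := QuotientGroup.mk' M.toSubgroup
  have hqa : ∀ g, q g = q a → g ^ 4 = 1 := by
    intro g hg
    have h1 : a⁻¹ * g ∈ M.toSubgroup := QuotientGroup.eq.1 hg.symm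
    have h2 : a * (a⁻¹ * g) ∈ U := hM h1
    rw [mul_inv_cancel_left] at h2
    exact h4 g h2
  have hqa4 : q a ^ 4 = 1 := by rw [← map_pow, h4 a ha, map_one]
  have hker : ∀ g ∈ M.toSubgroup, q g = 1 := fun g hg => (QuotientGroup.eq_one_iff g).2 hg
  -- the open subgroups `Γ = ⟨a, M⟩` and `Γ₀ = ⟨a², M⟩`
  let Γ : Subgroup G := (Subgroup.zpowers (q a)).comap q
  let Γ₀ : Subgroup G := (Subgroup.zpowers (q a ^ 2)).comap q
  have hMΓ : M.toSubgroup ≤ Γ := by
    intro g hg
    rw [Subgroup.mem_comap, hker g hg]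
    exact Subgroup.one_mem _
  have hMΓ₀ : M.toSubgroup ≤ Γ₀ := by
    intro g hg
    rw [Subgroup.mem_comap, hker g hg]
    exact Subgroup.one_mem _
  have hΓo : IsOpen (Γ : Set G) := Subgroup.isOpen_mono hMΓ M.isOpen'
  have hΓ₀o : IsOpen (Γ₀ : Set G) := Subgroup.isOpen_mono hMΓ₀ M.isOpen'
  have hform : ∀ g ∈ Γ, g ∈ Γ₀ ∨ q g = q a ∨ q g = (q a)⁻¹ := by
    rintro g ⟨k, hk⟩
    have hk' : q a ^ k = q g := hk
    rcases Int.even_or_odd' k with ⟨m, rfl | rfl⟩
    · left
      refine ⟨m, ?_⟩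
      change (q a ^ 2) ^ m = q g
      rw [← hk', zpow_mul]
      norm_cast
    · right
      rcases Int.even_or_odd' m with ⟨l, rfl | rfl⟩
      · left
        have e1 : (2 * (2 * l) + 1 : ℤ) = 4 * l + 1 := by ring
        rw [← hk', e1, zpow_add, zpow_mul, zpow_one]
        have : q a ^ (4 : ℤ) = 1 := by exact_mod_cast hqa4
        rw [this, one_zpow, one_mul]
      · right
        have e1 : (2 * (2 * l + 1) + 1 : ℤ) = 4 * (l + 1) + (-1) := by ring
        rw [← hk', e1, zpow_add, zpow_mul, zpow_neg_one]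
        have : q a ^ (4 : ℤ) = 1 := by exact_mod_cast hqa4
        rw [this, one_zpow, one_mul]
  have hfour : ∀ g ∈ Γ, g ∉ Γ₀ → g ^ 4 = 1 := by
    intro g hg hg0
    rcases hform g hg with h | h | h
    · exact absurd h hg0
    · exact hqa g h
    · have h1 := hqa g⁻¹ (by rw [map_inv, h, inv_inv])
      rw [inv_pow, inv_eq_one] at h1
      exact h1
  have hmul : ∀ g ∈ Γ, ∀ h ∈ Γ, g ∉ Γ₀ → h ∉ Γ₀ → g * h ∈ Γ₀ := by
    have h2 : q a ^ 2 ∈ Subgroup.zpowers (q a ^ 2) := Subgroup.mem_zpowers _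
    intro g hg h hh hg0 hh0
    rw [Subgroup.mem_comap, map_mul]
    rcases hform g hg with h1 | h1 | h1
    · exact absurd h1 hg0
    · rcases hform h hh with h3 | h3 | h3
      · exact absurd h3 hh0
      · rw [h1, h3, ← pow_two]; exact h2
      · rw [h1, h3, mul_inv_cancel]; exact Subgroup.one_mem _
    · rcases hform h hh with h3 | h3 | h3
      · exact absurd h3 hh0
      · rw [h1, h3, inv_mul_cancel]; exact Subgroup.one_mem _
      · rw [h1, h3, ← mul_inv_rev, ← pow_two]; exact Subgroup.inv_mem _ h2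
  have haΓ : a ∈ Γ := Subgroup.mem_zpowers _
  -- it suffices to treat `Γ`
  suffices hsuf : ∃ n : ℕ, 0 < n ∧ ∀ g ∈ Γ, g ^ n = 1 by
    obtain ⟨n, hn, h⟩ := hsuf
    exact exponent_of_open M n hn (fun b hb => h b (hMΓ hb))
  by_cases ha0 : a ∈ Γ₀
  · -- then `a ∈ M` and `M` is contained in the open set
    refine ⟨4, by norm_num, ?_⟩
    have hqa1 : q a = 1 := by
      obtain ⟨k, hk⟩ := ha0
      have hk' : (q a ^ 2) ^ k = q a := hk
      have h1 : q a ^ (2 * k - 1) = 1 := by
        rw [zpow_sub, zpow_mul, zpow_one, zpow_ofNat, hk', mul_inv_cancel]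
      have h5 : q a ^ (4 : ℤ) = 1 := by exact_mod_cast hqa4
      rcases Int.even_or_odd' k with ⟨m, rfl | rfl⟩
      · have e1 : (2 * (2 * m) - 1 : ℤ) = 4 * m + (-1) := by ring
        rw [e1, zpow_add, zpow_mul, h5, one_zpow, one_mul, zpow_neg_one, inv_eq_one] at h1
        exact h1
      · have e1 : (2 * (2 * m + 1) - 1 : ℤ) = 4 * m + 1 := by ring
        rw [e1, zpow_add, zpow_mul, h5, one_zpow, one_mul, zpow_one] at h1
        exact h1
    intro g hg
    apply hqa g
    obtain ⟨k, hk⟩ := hg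
    have hk' : q a ^ k = q g := hk
    rw [← hk', hqa1, one_zpow]
  · have hcl : IsClosed (Γ : Set G) := Γ.isClosed_of_isOpen hΓo
    have hcomp : CompactSpace Γ := isCompact_iff_compactSpace.1 hcl.isCompact
    let N0 : Subgroup Γ := Γ₀.subgroupOf Γ
    have hN0o : IsOpen (N0 : Set Γ) := hΓ₀o.preimage continuous_subtype_val
    have hodd : ∀ a b : Γ, a ∉ N0 → b ∉ N0 → a * b ∈ N0 := fun a b ha hb =>
      hmul a a.2 b b.2 ha hb
    have h4' : ∀ w : Γ, w ∉ N0 → w ^ 4 = 1 := fun w hw =>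
      Subtype.ext (by push_cast; exact hfour w w.2 hw)
    have hG' : IsPGroup 2 Γ := hG.to_subgroup Γ
    obtain ⟨n, hn, h⟩ := four_core hG' N0 hN0o hodd h4' ⟨⟨a, haΓ⟩, ha0⟩
      (fun x hx y hy z hz => odd_finite hG' N0 hodd h4' x y z hx hy hz)
    refine ⟨n, hn, fun g hg => ?_⟩
    have h1 := congrArg Subtype.val (h ⟨g, hg⟩)
    exact h1

end Pool.Agent.Lib.MP_afab79_al.E4
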